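import Pool.Agent.Work.MP_d70a14_gt.C.Transfer

/-! # The speed of the light does not matter -/

open MeasureTheory Set Metric Filter Topology
open scoped RealInnerProductSpace ContDiff ENNReal

noncomputable section

namespace Pool.Agent.Work.MP_d70a14_gt

variable {V : Set E} {K : Bool → Set P2} {ι : Bool → P2 →ᵃⁱ[ℝ] E}

theorem flow_scale {W : Set E} {k : ℕ} {x v y w : E} {t a : ℝ} (ha : 0 < a)
    (h : Flow V W k x v t y w) : Flow V W k x (a • v) (t / a) y (a • w) := by
  induction h with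
  | @free x v t ht hf =>
    have h1 : x + t • v = x + (t / a) • (a • v) := by
      rw [smul_smul, div_mul_cancel₀ t ha.ne']
    rw [h1]
    refine Flow.free (by positivity) fun s hs hst => ?_
    rw [smul_smul]
    exact hf _ (by positivity) ((lt_div_iff₀ ha).1 hst)
  | @refl k x v t₁ n t₂ y w ht hf hWp hn hv hF ih =>
    have h1 : x + (t₁ / a) • (a • v) = x + t₁ • v := by
      rw [smul_smul, div_mul_cancel₀ t₁ ha.ne']
    have h2 : mirror n (a • v) = a • mirror n v := by
      unfold mirror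
      rw [real_inner_smul_left]
      module
    rw [add_div]
    refine Flow.refl (n := n) (by positivity) (fun s hs hst => ?_) (by rw [h1]; exact hWp)
      (by rw [h1]; exact hn) ?_ ?_
    · rw [smul_smul]
      exact hf _ (by positivity) ((lt_div_iff₀ ha).1 hst)
    · rw [real_inner_smul_left]
      exact mul_ne_zero ha.ne' hv
    · rw [h1, h2]
      exact ih

theorem cset_scale {i : Bool} {q : E × E} {a : ℝ} (ha : 0 < a) (h : q ∈ Cset V K ι i) :
    (q.1, a • q.2) ∈ Cset V K ι i := by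
  obtain ⟨h1, k, t, y, w, n, h2, h3, h4, h5⟩ := h
  refine ⟨h1, k, t / a, y, a • w, n, ?_, h3, h4, ?_⟩
  · have h6 := flow_scale ha h2
    have h7 : a • (-q.2) = -(a • q.2) := smul_neg a q.2
    rw [h7] at h6
    exact h6
  · rw [real_inner_smul_left]
    exact mul_ne_zero ha.ne' h5

theorem mono_of_half {f : E → ℝ} (h : Half V K ι f) :
    ∀ᵐ q : E × E, q ∈ Cset V K ι false → 0 ≤ rate f q := by
  have h1 : ∀ N : ℕ, ∀ᵐ q : E × E, q.1 ∈ V → ‖((N + 1 : ℝ)⁻¹) • q.2‖ < 1 →
      (0 < rate f (q.1, ((N + 1 : ℝ)⁻¹) • q.2) →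
        (q.1, ((N + 1 : ℝ)⁻¹) • q.2) ∈ Cset V K ι false) ∧
      (rate f (q.1, ((N + 1 : ℝ)⁻¹) • q.2) < 0 →
        (q.1, ((N + 1 : ℝ)⁻¹) • q.2) ∉ Cset V K ι false) := by
    intro N
    have hN : ((N + 1 : ℝ)⁻¹) ≠ 0 := by positivity
    have h2 : Measure.map (fun v : E => ((N + 1 : ℝ)⁻¹) • v) (volume : Measure E) ≪ volume := by
      rw [Measure.map_addHaar_smul volume hN]
      exact Measure.smul_absolutelyContinuous
    have hm : Measurable (fun v : E => ((N + 1 : ℝ)⁻¹) • v) :=
      (continuous_const_smul _).measurable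
    have h3 : Measure.QuasiMeasurePreserving
        (Prod.map (id : E → E) (fun v : E => ((N + 1 : ℝ)⁻¹) • v))
        ((volume : Measure E).prod (volume : Measure E)) (volume.prod volume) := by
      refine ⟨measurable_id.prodMap hm, ?_⟩
      rw [← Measure.map_prod_map _ _ measurable_id hm, Measure.map_id]
      exact Measure.AbsolutelyContinuous.rfl.prod h2
    exact h3.ae h
  have h2 := ae_all_iff.2 h1
  filter_upwards [h2] with q hq hC
  by_contra hcon
  rw [not_le] at hcon
  obtain ⟨N, hN⟩ := exists_nat_gt ‖q.2‖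
  have hpos : (0 : ℝ) < (N + 1 : ℝ)⁻¹ := by positivity
  have h3 : ‖((N + 1 : ℝ)⁻¹) • q.2‖ < 1 := by
    rw [norm_smul, Real.norm_eq_abs, abs_of_pos hpos, inv_mul_lt_iff₀ (by positivity)]
    linarith
  have h4 := (hq N hC.1 h3).2 (by
    have h5 : rate f (q.1, ((N + 1 : ℝ)⁻¹) • q.2) = (N + 1 : ℝ)⁻¹ * rate f q := by
      unfold rate
      rw [real_inner_smul_right]
    rw [h5]
    exact mul_neg_of_pos_of_neg hpos hcon)
  exact h4 (cset_scale hpos hC)

end Pool.Agent.Work.MP_d70a14_gt

end
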