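import Pool.Agent.Work.MP_d70a14_gt.Defs

/-! # The constant of the unit ball (M)

`cB = (1/2) ∫_{‖v‖<1} |v 0| = (1/2) ∫ |⟪e₀, v⟫|` with the first unit vector `e₀`.  For a unit vector `n` there is a linear isometry `L` of `E` with
`L n = e₀` (`LinearIsometryEquiv` mapping one unit vector to another: reflection in the mediator, or extend to orthonormal bases); it preserves the
volume and the ball, so `∫ |⟪n, v⟫| = 2 cB`; homogeneity for general `w` (`w = ‖w‖ n`).  Half ball: `v ↦ -v` maps `{⟪v, n⟫ > 0}` to `{⟪v, n⟫ < 0}`, and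
`{⟪v, n⟫ = 0}` contributes `0`, so `∫_{⟪v, n⟫ > 0} ⟪v, n⟫ = (1/2) ∫ |⟪v, n⟫| = cB`.  Positivity: the integrand is positive a.e. -/

open MeasureTheory Set Metric Filter Topology
open scoped RealInnerProductSpace ContDiff ENNReal

noncomputable section

namespace Pool.Agent.Work.MP_d70a14_gt

/-- half of the integral of `|v 0|` over the unit ball -/
def cB : ℝ := (∫ v in ball (0 : E) 1, |v 0|) / 2

private theorem integrable_abs : IntegrableOn (fun v : E => |v 0|) (ball (0 : E) 1) := by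
  have h1 : Continuous fun v : E => |v 0| := by fun_prop
  exact (h1.continuousOn.integrableOn_compact (isCompact_closedBall (0 : E) 1)).mono_set
    ball_subset_closedBall

theorem cB_pos : 0 < cB := by
  unfold cB
  have h1 : 0 < ∫ v in ball (0 : E) 1, |v 0| := by
    rw [setIntegral_pos_iff_support_of_nonneg_ae (Eventually.of_forall fun v => abs_nonneg _)
      integrable_abs]
    have h2 : IsOpen ({v : E | v 0 ≠ 0} ∩ ball (0 : E) 1) := by
      apply IsOpen.inter _ isOpen_ball
      have : Continuous fun v : E => v 0 := by fun_prop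
      exact isOpen_ne_fun this continuous_const
    have h3 : ({v : E | v 0 ≠ 0} ∩ ball (0 : E) 1).Nonempty := by
      refine ⟨EuclideanSpace.single 0 (1 / 2 : ℝ), ?_, ?_⟩
      · simp
      · rw [mem_ball_zero_iff, EuclideanSpace.norm_single]
        norm_num
    refine (h2.measure_pos volume h3).trans_le (measure_mono ?_)
    rintro v ⟨hv, hv'⟩
    exact ⟨abs_ne_zero.2 hv, hv'⟩
  linarith

private theorem lint_unit {n : E} (hn : ‖n‖ = 1) :
    ∫⁻ v in ball (0 : E) 1, ENNReal.ofReal |⟪n, v⟫| = ENNReal.ofReal (2 * cB) := by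
  set e : E := EuclideanSpace.single 0 (1 : ℝ) with he
  have he1 : ‖n‖ = ‖e‖ := by
    rw [hn, he, EuclideanSpace.norm_single, norm_one]
  set L : E ≃ₗᵢ[ℝ] E := (ℝ ∙ (n - e))ᗮ.reflection with hL
  have hLn : L n = e := Submodule.reflection_sub he1
  have h1 : ∀ v, ENNReal.ofReal |⟪n, v⟫| = ENNReal.ofReal |⟪e, L v⟫| := by
    intro v
    rw [← hLn, LinearIsometryEquiv.inner_map_map]
  have h2 : L ⁻¹' ball (0 : E) 1 = ball (0 : E) 1 := by
    ext v
    rw [mem_preimage, mem_ball_zero_iff, mem_ball_zero_iff, LinearIsometryEquiv.norm_map]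
  have h3 : Measurable fun v : E => ENNReal.ofReal |⟪e, v⟫| := by
    apply ENNReal.measurable_ofReal.comp
    apply Continuous.measurable
    fun_prop
  calc ∫⁻ v in ball (0 : E) 1, ENNReal.ofReal |⟪n, v⟫|
      = ∫⁻ v in L ⁻¹' ball (0 : E) 1, ENNReal.ofReal |⟪e, L v⟫| := by
        rw [h2]
        exact lintegral_congr fun v => h1 v
    _ = ∫⁻ v in ball (0 : E) 1, ENNReal.ofReal |⟪e, v⟫| :=
        L.measurePreserving.setLIntegral_comp_preimage isOpen_ball.measurableSet h3
    _ = ∫⁻ v in ball (0 : E) 1, ENNReal.ofReal |v 0| := by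
        refine lintegral_congr fun v => ?_
        rw [he, EuclideanSpace.inner_single_left]
        simp
    _ = ENNReal.ofReal (2 * cB) := by
        rw [← ofReal_integral_eq_lintegral_ofReal integrable_abs
          (Eventually.of_forall fun v => abs_nonneg _)]
        congr 1
        unfold cB
        ring

theorem lint_abs (w : E) :
    ∫⁻ v in ball (0 : E) 1, ENNReal.ofReal |⟪w, v⟫| = ENNReal.ofReal (2 * cB * ‖w‖) := by
  rcases eq_or_ne w 0 with hw | hw
  · subst hw
    simp
  · have hw' : 0 < ‖w‖ := norm_pos_iff.2 hw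
    have h1 : ‖(‖w‖⁻¹ : ℝ) • w‖ = 1 := by
      rw [norm_smul, norm_inv, norm_norm, inv_mul_cancel₀ hw'.ne']
    have h2 := lint_unit h1
    have h3 : ∀ v : E, ENNReal.ofReal |⟪w, v⟫| =
        ENNReal.ofReal ‖w‖ * ENNReal.ofReal |⟪(‖w‖⁻¹ : ℝ) • w, v⟫| := by
      intro v
      rw [← ENNReal.ofReal_mul hw'.le, real_inner_smul_left, abs_mul, abs_inv, abs_norm,
        ← mul_assoc, mul_inv_cancel₀ hw'.ne', one_mul]
    simp only [h3]
    rw [lintegral_const_mul' _ _ ENNReal.ofReal_ne_top, h2, ← ENNReal.ofReal_mul hw'.le]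
    congr 1
    ring

theorem lint_half {n : E} (hn : ‖n‖ = 1) :
    ∫⁻ v in ball (0 : E) 1 ∩ {v | 0 < ⟪v, n⟫}, ENNReal.ofReal ⟪v, n⟫ = ENNReal.ofReal cB := by
  set F : E → ℝ≥0∞ := fun v => ENNReal.ofReal ⟪v, n⟫ with hF
  have hFm : Measurable F := by
    apply ENNReal.measurable_ofReal.comp
    apply Continuous.measurable
    fun_prop
  have hSm : MeasurableSet {v : E | 0 < ⟪v, n⟫} := by
    apply IsOpen.measurableSet
    apply isOpen_lt continuous_const
    fun_prop
  have h1 : ∫⁻ v in ball (0 : E) 1 ∩ {v | 0 < ⟪v, n⟫}, F v = ∫⁻ v in ball (0 : E) 1, F v := by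
    rw [inter_comm, ← setLIntegral_indicator hSm]
    refine lintegral_congr fun v => ?_
    by_cases hv : 0 < ⟪v, n⟫
    · exact indicator_of_mem (s := {v : E | 0 < ⟪v, n⟫}) hv _
    · rw [indicator_of_notMem (s := {v : E | 0 < ⟪v, n⟫}) hv]
      exact (ENNReal.ofReal_of_nonpos (not_lt.1 hv)).symm
  have h2 : ∫⁻ v in ball (0 : E) 1, F (-v) = ∫⁻ v in ball (0 : E) 1, F v := by
    have h3 : (Neg.neg : E → E) ⁻¹' ball (0 : E) 1 = ball (0 : E) 1 := by
      ext v
      rw [mem_preimage, mem_ball_zero_iff, mem_ball_zero_iff, norm_neg]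
    have h4 := (Measure.measurePreserving_neg (volume : Measure E)).setLIntegral_comp_preimage
      (isOpen_ball (x := (0 : E)) (ε := 1)).measurableSet hFm
    rw [h3] at h4
    exact h4
  have h3 : ∫⁻ v in ball (0 : E) 1, ENNReal.ofReal |⟪n, v⟫| =
      (∫⁻ v in ball (0 : E) 1, F v) + ∫⁻ v in ball (0 : E) 1, F (-v) := by
    rw [← lintegral_add_left hFm]
    refine lintegral_congr fun v => ?_
    simp only [hF, inner_neg_left, real_inner_comm v n]
    rcases le_total 0 ⟪v, n⟫ with h | h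
    · rw [abs_of_nonneg h, ENNReal.ofReal_of_nonpos (by linarith : -⟪v, n⟫ ≤ 0), add_zero]
    · rw [abs_of_nonpos h, ENNReal.ofReal_of_nonpos h, zero_add]
  rw [h2, lint_unit hn, ← two_mul] at h3
  rw [h1]
  have h4 : ENNReal.ofReal (2 * cB) = 2 * ENNReal.ofReal cB := by
    rw [ENNReal.ofReal_mul (by norm_num)]
    norm_num
  rw [h4] at h3
  exact ((ENNReal.mul_right_inj two_ne_zero ENNReal.ofNat_ne_top).1 h3).symm

end Pool.Agent.Work.MP_d70a14_gt

end
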