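import Pool.Agent.Work.MP_d70a14_gt.A.LiveA

/-! # The fundamental theorem along a ray (M)

Induction on the flow.  `free`: for `0 < r < t` the point `x + r v` is in `V`, so `st V W x v r = (x + r v, v)` (`st_eq`), and
`rate f (x + r v, v) = d/dr f (x + r v)` (`f` is differentiable on the open set `U`); the segment is in the compact subset `closure V`-part, the derivative is
continuous on `[0, t]` (`x ∈ closure V ⊆ U`, end point in `closure V ⊆ U`): `intervalIntegral.integral_eq_sub_of_hasDerivAt`.
`refl` (first hit `t`, `p = x + t v ∈ W ⊆ closure V`, rest of duration `t'`): `∫_0^{t+t'} = ∫_0^t + ∫_t^{t+t'}`; on `(0, t)` as before; for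
`0 < r' < t'` with `r'` live for the rest: `st V W x v (t + r') = st V W p (mirror n v) r'` (`st_eq` with `Flow.refl`), for all `r'` in `(0, t')`
except finitely many (`Flow.finite_bad`), so the integrals agree (shift of the variable). -/

open MeasureTheory Set Metric Filter Topology
open scoped RealInnerProductSpace ContDiff ENNReal

noncomputable section

namespace Pool.Agent.Work.MP_d70a14_gt

private theorem rate_eq (f : E → ℝ) (x v : E) : rate f (x, v) = fderiv ℝ f x v := by
  unfold rate gradient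
  exact InnerProductSpace.toDual_symm_apply

private theorem free_part {V : Set E} {U : Set E} {f : E → ℝ} {x v : E} {t : ℝ} {g : ℝ → ℝ}
    (hU : IsOpen U) (hVU : closure V ⊆ U) (hf : ContDiffOn ℝ 1 f U) (ht : 0 < t)
    (hfree : ∀ s, 0 < s → s < t → x + s • v ∈ V) (hx : x ∈ closure V)
    (hp : x + t • v ∈ closure V) (hg : ∀ r ∈ Ioo 0 t, g r = rate f (x + r • v, v)) :
    IntegrableOn g (Ioc 0 t) ∧ ∫ r in Ioc 0 t, g r = f (x + t • v) - f x := by
  have hin : ∀ r ∈ Icc 0 t, x + r • v ∈ U := by
    intro r hr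
    apply hVU
    rcases eq_or_lt_of_le hr.1 with h | h
    · rw [← h, zero_smul, add_zero]
      exact hx
    · rcases eq_or_lt_of_le hr.2 with h' | h'
      · rw [h']
        exact hp
      · exact subset_closure (hfree r h h')
  have hder : ∀ r ∈ Icc 0 t, HasDerivAt (fun r : ℝ => f (x + r • v)) (fderiv ℝ f (x + r • v) v) r := by
    intro r hr
    have h8 : HasDerivAt (fun r : ℝ => x + r • v) v r := by
      have := ((hasDerivAt_id r).smul_const v).const_add x
      simpa using this
    have h9 : HasFDerivAt f (fderiv ℝ f (x + r • v)) (x + r • v) :=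
      ((hf.contDiffAt (hU.mem_nhds (hin r hr))).differentiableAt one_ne_zero).hasFDerivAt
    exact h9.comp_hasDerivAt r h8
  have hcont : ContinuousOn (fun r : ℝ => fderiv ℝ f (x + r • v) v) (Icc 0 t) := by
    have h1 : ContinuousOn (fderiv ℝ f) U := hf.continuousOn_fderiv_of_isOpen hU le_rfl
    have h2 : Continuous fun r : ℝ => x + r • v := by fun_prop
    exact (h1.comp h2.continuousOn hin).clm_apply continuousOn_const
  have hI : IntegrableOn (fun r : ℝ => fderiv ℝ f (x + r • v) v) (Ioc 0 t) :=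
    (hcont.integrableOn_compact isCompact_Icc).mono_set Ioc_subset_Icc_self
  have hge : ∀ r ∈ Ioo 0 t, g r = fderiv ℝ f (x + r • v) v := by
    intro r hr
    rw [hg r hr, rate_eq]
  have hFTC : ∫ r in Ioc 0 t, fderiv ℝ f (x + r • v) v = f (x + t • v) - f x := by
    rw [← intervalIntegral.integral_of_le ht.le]
    rw [intervalIntegral.integral_eq_sub_of_hasDerivAt (f := fun r : ℝ => f (x + r • v))]
    · rw [zero_smul, add_zero]
    · intro r hr
      rw [uIcc_of_le ht.le] at hr
      exact hder r hr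
    · rw [intervalIntegrable_iff_integrableOn_Ioc_of_le ht.le]
      exact hI
  constructor
  · rw [integrableOn_Ioc_iff_integrableOn_Ioo] at hI ⊢
    exact hI.congr_fun (fun r hr => (hge r hr).symm) measurableSet_Ioo
  · rw [← hFTC, integral_Ioc_eq_integral_Ioo, integral_Ioc_eq_integral_Ioo]
    exact setIntegral_congr_fun measurableSet_Ioo hge

private theorem path_aux {V W : Set E} (hV : IsOpen V) (hW : W ⊆ frontier V) {U : Set E} {f : E → ℝ}
    (hU : IsOpen U) (hVU : closure V ⊆ U) (hf : ContDiffOn ℝ 1 f U) {k : ℕ} {x v y w : E} {t : ℝ}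
    (h : Flow V W k x v t y w) (hx : x ∈ closure V) :
    IntegrableOn (fun r => rate f (st V W x v r)) (Ioc 0 t) ∧
      ∫ r in Ioc 0 t, rate f (st V W x v r) = f y - f x := by
  induction h with
  | @free x v t ht hfr =>
    refine free_part hU hVU hf ht hfr hx (Flow.mem_closure (Flow.free (W := W) ht hfr)) ?_
    intro r hr
    have h1 : Flow V W 0 x v r (x + r • v) v :=
      Flow.free hr.1 fun s hs hsr => hfr s hs (hsr.trans hr.2)
    rw [(st_eq hV hW h1 (hfr r hr.1 hr.2)).2]
  | @refl k x v t₁ n t₂ y w ht hfr hWp hn hv hF ih =>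
    have hp : x + t₁ • v ∈ closure V := frontier_subset_closure (hW hWp)
    obtain ⟨h1, h2⟩ := free_part (g := fun r => rate f (st V W x v r)) hU hVU hf ht hfr hx hp (by
      intro r hr
      have h1 : Flow V W 0 x v r (x + r • v) v :=
        Flow.free hr.1 fun s hs hsr => hfr s hs (hsr.trans hr.2)
      show rate f (st V W x v r) = _
      rw [(st_eq hV hW h1 (hfr r hr.1 hr.2)).2])
    obtain ⟨h3, h4⟩ := ih hp
    have ht₂ := hF.pos
    obtain ⟨S, hS⟩ := Flow.finite_bad hF
    have h5 : ∀ r ∈ Ioo 0 t₂, r ∉ S → st V W x v (t₁ + r) = st V W (x + t₁ • v) (mirror n v) r := by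
      intro r hr hrS
      obtain ⟨j, y', w', h6, h7⟩ := hS r hr.1 hr.2 hrS
      rw [(st_eq hV hW h6 h7).2]
      exact (st_eq hV hW (Flow.refl ht hfr hWp hn hv h6) h7).2
    have h6 : (fun r => rate f (st V W x v (t₁ + r))) =ᵐ[volume.restrict (Ioc 0 t₂)]
        fun r => rate f (st V W (x + t₁ • v) (mirror n v) r) := by
      have h7 : ∀ᵐ r : ℝ, r ∉ insert t₂ (S : Set ℝ) := by
        have h8 : volume (insert t₂ (S : Set ℝ)) = 0 :=
          (S.finite_toSet.insert t₂).measure_zero volume
        exact measure_eq_zero_iff_ae_notMem.1 h8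
      filter_upwards [ae_restrict_of_ae h7, ae_restrict_mem measurableSet_Ioc] with r hr1 hr2
      rw [mem_insert_iff, not_or] at hr1
      show rate f _ = rate f _
      rw [h5 r ⟨hr2.1, lt_of_le_of_ne hr2.2 hr1.1⟩ (by simpa using hr1.2)]
    have h7 : IntegrableOn (fun r => rate f (st V W x v (t₁ + r))) (Ioc 0 t₂) :=
      h3.congr_fun_ae h6.symm
    have hpre : (fun r : ℝ => t₁ + r) ⁻¹' Ioc t₁ (t₁ + t₂) = Ioc 0 t₂ := by
      rw [preimage_const_add_Ioc, sub_self, add_sub_cancel_left]
    have hmp := measurePreserving_add_left (volume : Measure ℝ) t₁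
    have h8 : IntegrableOn (fun r => rate f (st V W x v r)) (Ioc t₁ (t₁ + t₂)) := by
      have h9 := hmp.integrableOn_comp_preimage (measurableEmbedding_addLeft t₁)
        (f := fun r => rate f (st V W x v r)) (s := Ioc t₁ (t₁ + t₂))
      rw [hpre] at h9
      exact h9.1 h7
    have h9 : ∫ r in Ioc t₁ (t₁ + t₂), rate f (st V W x v r) =
        ∫ r in Ioc 0 t₂, rate f (st V W x v (t₁ + r)) := by
      rw [← hpre]
      exact (hmp.setIntegral_preimage_emb (measurableEmbedding_addLeft t₁)
        (fun r => rate f (st V W x v r)) (Ioc t₁ (t₁ + t₂))).symm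
    have hun : Ioc 0 t₁ ∪ Ioc t₁ (t₁ + t₂) = Ioc 0 (t₁ + t₂) :=
      Ioc_union_Ioc_eq_Ioc ht.le (by linarith)
    constructor
    · rw [← hun]
      exact h1.union h8
    · rw [← hun, setIntegral_union (Ioc_disjoint_Ioc_of_le le_rfl) measurableSet_Ioc h1 h8, h2, h9,
        integral_congr_ae h6, h4]
      ring

theorem path_int {V W : Set E} (hV : IsOpen V) (hW : W ⊆ frontier V) {U : Set E} {f : E → ℝ}
    (hU : IsOpen U) (hVU : closure V ⊆ U) (hf : ContDiffOn ℝ 1 f U) {k : ℕ} {x v y w : E} {t : ℝ}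
    (h : Flow V W k x v t y w) (hx : x ∈ closure V) :
    IntegrableOn (fun r => rate f (st V W x v r)) (Ioo 0 t) ∧
      ∫ r in Ioo 0 t, rate f (st V W x v r) = f y - f x := by
  obtain ⟨h1, h2⟩ := path_aux hV hW hU hVU hf h hx
  rw [integrableOn_Ioc_iff_integrableOn_Ioo] at h1
  exact ⟨h1, by rw [← integral_Ioc_eq_integral_Ioo, h2]⟩

end Pool.Agent.Work.MP_d70a14_gt

end
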