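import Pool.Agent.Work.MP_d70a14_gt.C.Transfer
import Pool.Agent.Work.MP_d70a14_gt.C.PathInt
import Pool.Agent.Work.MP_d70a14_gt.C.BallC

/-! # The flux identity (M-L)

Let `m` be the unit normal of the plane of the end `i` (`planeNormal`), `W = Wall V K ι`.  Apply `susp` to
`g q = indicator (V ×ˢ ball 0 1) (ofReal (rate f q))` and to the same with `-rate f` (measurable: `V` is open and `∇f` is continuous on it).  For a.e. `(u, y)`
with `y ∈ interior (K i)` and inner normal `n` (`= ± m`) at `ι i y`: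
* `⟪u, n⟫ > 0`, `‖u‖ < 1`: by `through` the ray leaves at a time `T` through `y₂ ∈ ι (!i) '' interior (K (!i))`; `f (ι i y) = 0`, `f y₂ = 1`; `Live` is
  `(0, T)` up to finitely many points (`exit_live`), `‖(st ..).2‖ = ‖u‖ < 1` and `(st ..).1 ∈ V` on `Live`; by `path_int`
  `∫ rate = 1`, so `∫⁻ ofReal rate = ∫⁻ ofReal (-rate) + 1` (`integral_eq_lintegral_pos_part_sub_lintegral_neg_part`, both finite by integrability).
* `⟪u, n⟫ < 0`: `Live = ∅`, both sides `0`.  `⟪u, m⟫ = 0`: the weight is `0`.  `‖u‖ ≥ 1`: both sides `0`.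
So the two integrals differ by `∫⁻ u, |⟪u, m⟫| ∫⁻ y in interior (K i), 1_{⟪u, n y⟫ > 0, ‖u‖ < 1} = ∫⁻ y in interior (K i), ofReal cB` (Tonelli, `lint_half`)
`= ofReal cB * volume (K i)` (`volume (interior (K i)) = volume (K i)` by `null` and `regular`).  (For the measurability of `n y = ± m` in `y`: the set of
`y ∈ interior (K i)` with `n y = m` is open by `one_side`.) -/

open MeasureTheory Set Metric Filter Topology
open scoped RealInnerProductSpace ContDiff ENNReal

noncomputable section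

namespace Pool.Agent.Work.MP_d70a14_gt

variable {V : Set E} {K : Bool → Set P2} {ι : Bool → P2 →ᵃⁱ[ℝ] E}

private theorem ind_meas {U : Set E} {f : E → ℝ} (hV : IsOpen V) (hU : IsOpen U)
    (hVU : closure V ⊆ U) (hf : ContDiffOn ℝ 1 f U) {φ : ℝ → ℝ} (hφ : Continuous φ) :
    Measurable ((V ×ˢ ball (0 : E) 1).indicator fun q : E × E => ENNReal.ofReal (φ (rate f q))) := by
  classical
  have h1 : ContinuousOn (fderiv ℝ f) U := hf.continuousOn_fderiv_of_isOpen hU le_rfl
  have h2 : ContinuousOn (fun q : E × E => fderiv ℝ f q.1 q.2) (V ×ˢ ball (0 : E) 1) :=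
    (h1.comp continuousOn_fst (fun q hq => hVU (subset_closure hq.1))).clm_apply continuousOn_snd
  have h3 : ContinuousOn (fun q : E × E => ENNReal.ofReal (φ (rate f q))) (V ×ˢ ball (0 : E) 1) := by
    have h4 : (fun q : E × E => ENNReal.ofReal (φ (rate f q))) =
        fun q : E × E => ENNReal.ofReal (φ (fderiv ℝ f q.1 q.2)) := by
      funext q
      have h5 : rate f q = fderiv ℝ f q.1 q.2 := by
        unfold rate gradient
        exact InnerProductSpace.toDual_symm_apply
      rw [h5]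
    rw [h4]
    exact ENNReal.continuous_ofReal.comp_continuousOn (hφ.comp_continuousOn h2)
  rw [← piecewise_eq_indicator]
  exact h3.measurable_piecewise continuousOn_const (hV.prod isOpen_ball).measurableSet

private theorem in_set {i : Bool} (hV : IsOpen V) (F : E × E → ℝ≥0∞) :
    ∫⁻ q in Cset V K ι i ∩ {q | ‖q.2‖ < 1}, F q =
      ∫⁻ q in Cset V K ι i, (V ×ˢ ball (0 : E) 1).indicator F q := by
  rw [setLIntegral_indicator (hV.prod isOpen_ball).measurableSet]
  have h1 : Cset V K ι i ∩ {q | ‖q.2‖ < 1} = (V ×ˢ ball (0 : E) 1) ∩ Cset V K ι i := by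
    ext q
    constructor
    · rintro ⟨h1, h2⟩
      exact ⟨⟨h1.1, mem_ball_zero_iff.2 h2⟩, h1⟩
    · rintro ⟨h1, h2⟩
      exact ⟨h2, mem_ball_zero_iff.1 h1.2⟩
  rw [h1]

private theorem live_empty {W : Set E} {y u n : E} (hn : InnerNormal V y n) (hu : ⟪u, n⟫ < 0) :
    Live V W y u = ∅ := by
  rw [eq_empty_iff_forall_notMem]
  rintro t ⟨k, x, v, -, hF⟩
  have h0 : ∃ t₁ : ℝ, 0 < t₁ ∧ ∀ s : ℝ, 0 < s → s < t₁ → y + s • u ∈ V := by
    cases hF with
    | free ht hf => exact ⟨t, ht, hf⟩
    | refl ht hf _ _ _ _ => exact ⟨_, ht, hf⟩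
  obtain ⟨t₁, ht₁, h1⟩ := h0
  have h2 : ∀ᶠ s : ℝ in 𝓝[>] 0, s ∈ Ioo 0 t₁ := Ioo_mem_nhdsGT ht₁
  obtain ⟨s, hs1, hs2⟩ := ((hn.outward hu).and h2).exists
  exact hs1 (h1 s hs2.1 hs2.2)

private theorem point (hb : Body V K ι) (i : Bool) {U : Set E} {f : E → ℝ} (hU : IsOpen U)
    (hVU : closure V ⊆ U) (hf : ContDiffOn ℝ 1 f U) (h0 : ∀ y ∈ K i, f (ι i y) = 0)
    (h1 : ∀ y ∈ K (!i), f (ι (!i) y) = 1) {y : P2} (hy : y ∈ interior (K i)) {u : E}
    (hu : ‖u‖ < 1)
    (hL : Leaves V (Wall V K ι) (ι (!i) '' interior (K (!i))) (ι i y) u) :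
    ∫⁻ t in Live V (Wall V K ι) (ι i y) u, (V ×ˢ ball (0 : E) 1).indicator
        (fun q => ENNReal.ofReal (rate f q)) (st V (Wall V K ι) (ι i y) u t) =
      (∫⁻ t in Live V (Wall V K ι) (ι i y) u, (V ×ˢ ball (0 : E) 1).indicator
        (fun q => ENNReal.ofReal (-rate f q)) (st V (Wall V K ι) (ι i y) u t)) + 1 := by
  obtain ⟨k, T, y₂, w, n₂, hF, hy₂, -, -⟩ := hL
  have hd := end_disjoint hb (!i)
  have hex := exit_live hb.isOpen Body.wall_sub hF (Set.disjoint_left.1 hd.1 hy₂)
    (Set.disjoint_left.1 hd.2 hy₂)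
  have hLm : MeasurableSet (Live V (Wall V K ι) (ι i y) u) := (live_isOpen hb.isOpen).measurableSet
  have hae : (Live V (Wall V K ι) (ι i y) u : Set ℝ) =ᵐ[volume] Ioo 0 T :=
    hex.1.eventuallyLE.antisymm (ae_le_set.2 (hex.2.measure_zero volume))
  have hp := path_int hb.isOpen Body.wall_sub hU hVU hf hF
    (frontier_subset_closure (hb.ends_frontier i (interior_subset hy)))
  obtain ⟨z, hz, rfl⟩ := hy₂
  rw [h0 y (interior_subset hy), h1 z (interior_subset hz), sub_zero] at hp
  have hmem : ∀ t ∈ Live V (Wall V K ι) (ι i y) u,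
      st V (Wall V K ι) (ι i y) u t ∈ V ×ˢ ball (0 : E) 1 := by
    intro t ht
    obtain ⟨h2, k', h3⟩ := live_spec ht
    refine ⟨h2, ?_⟩
    rw [mem_ball_zero_iff, h3.norm]
    exact hu
  have hcon : ∀ F : E × E → ℝ≥0∞, ∫⁻ t in Live V (Wall V K ι) (ι i y) u,
      (V ×ˢ ball (0 : E) 1).indicator F (st V (Wall V K ι) (ι i y) u t) =
      ∫⁻ t in Ioo 0 T, F (st V (Wall V K ι) (ι i y) u t) := by
    intro F
    rw [← setLIntegral_congr hae]
    exact setLIntegral_congr_fun hLm fun t ht => indicator_of_mem (hmem t ht) _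
  rw [hcon, hcon]
  have h4 := integral_eq_lintegral_pos_part_sub_lintegral_neg_part hp.1
  rw [hp.2] at h4
  have ha : ∫⁻ t in Ioo 0 T, ENNReal.ofReal (rate f (st V (Wall V K ι) (ι i y) u t)) ≠ ⊤ :=
    (Integrable.lintegral_lt_top hp.1).ne
  have hb' : ∫⁻ t in Ioo 0 T, ENNReal.ofReal (-rate f (st V (Wall V K ι) (ι i y) u t)) ≠ ⊤ :=
    (Integrable.lintegral_lt_top hp.1.neg).ne
  have h5 : (∫⁻ t in Ioo 0 T, ENNReal.ofReal (rate f (st V (Wall V K ι) (ι i y) u t))).toReal =
      ((∫⁻ t in Ioo 0 T, ENNReal.ofReal (-rate f (st V (Wall V K ι) (ι i y) u t))) + 1).toReal := by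
    rw [ENNReal.toReal_add hb' ENNReal.one_ne_top, ENNReal.toReal_one]
    linarith
  exact (ENNReal.toReal_eq_toReal_iff' ha (ENNReal.add_ne_top.2 ⟨hb', ENNReal.one_ne_top⟩)).1 h5

private theorem open_Q (hb : Body V K ι) (i : Bool) (n : E) :
    IsOpen {y | y ∈ interior (K i) ∧ InnerNormal V (ι i y) n} := by
  rw [isOpen_iff_mem_nhds]
  rintro y ⟨hy, hyn⟩
  obtain ⟨n', hn', hpl, r, hr, hball⟩ := hb.end_normal i hy
  have hnn := InnerNormal.unique hn' hyn
  subst hnn
  filter_upwards [isOpen_interior.mem_nhds hy, ball_mem_nhds y hr] with z hz hzr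
  refine ⟨hz, ?_⟩
  obtain ⟨n₂, hn₂, hpl₂, r₂, hr₂, hball₂⟩ := hb.end_normal i hz
  have hpl' : ∀ a b, ⟪ι i a - ι i b, n'⟫ = 0 := by
    intro a b
    have h1 := hpl a
    have h2 := hpl b
    have h3 : ι i a - ι i b = (ι i a - ι i y) - (ι i b - ι i y) := by abel
    rw [h3, inner_sub_left, h1, h2, sub_zero]
  rcases planeNormal_unique (ι i) hn'.1 hpl' hn₂.1 hpl₂ with h | h
  · rw [← h]
    exact hn₂
  · exfalso
    have hd : dist (ι i z) (ι i y) < r := by
      rw [(ι i).dist_map]
      exact hzr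
    obtain ⟨s, hs, hs'⟩ := exists_between (lt_min hr₂ (sub_pos.2 hd))
    have hx1 : ι i z + s • n' ∈ ball (ι i z) r₂ := by
      rw [mem_ball, dist_eq_norm, add_sub_cancel_left, norm_smul, hn'.1, mul_one, Real.norm_eq_abs,
        abs_of_pos hs]
      exact hs'.trans_le (min_le_left _ _)
    have hx2 : ι i z + s • n' ∈ ball (ι i y) r := by
      rw [mem_ball]
      have h1 : dist (ι i z + s • n') (ι i z) = s := by
        rw [dist_eq_norm, add_sub_cancel_left, norm_smul, hn'.1, mul_one, Real.norm_eq_abs,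
          abs_of_pos hs]
      have h2 := dist_triangle (ι i z + s • n') (ι i z) (ι i y)
      rw [h1] at h2
      have h3 := hs'.trans_le (min_le_right _ _)
      linarith
    have hnn : ⟪n', n'⟫ = 1 := by
      rw [real_inner_self_eq_norm_sq, hn'.1]
      norm_num
    have h1 : ι i z + s • n' ∈ V := by
      rw [hball _ hx2]
      have h2 : ι i z + s • n' - ι i y = (ι i z - ι i y) + s • n' := by abel
      rw [h2, inner_add_left, hpl z, real_inner_smul_left, hnn]
      linarith
    rw [hball₂ _ hx1, h, add_sub_cancel_left, inner_neg_right, real_inner_smul_left, hnn] at h1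
    linarith

private theorem slice_add (ho : OpticalFiber V K ι) (i : Bool) {U : Set E} {f : E → ℝ}
    (hU : IsOpen U) (hVU : closure V ⊆ U) (hf : ContDiffOn ℝ 1 f U)
    (h0 : ∀ y ∈ K i, f (ι i y) = 0) (h1 : ∀ y ∈ K (!i), f (ι (!i) y) = 1) {n : E} (hn : ‖n‖ = 1)
    (hpl : ∀ y z, ⟪ι i y - ι i z, n⟫ = 0) {u : E} (hu : ‖u‖ < 1) (hun : 0 < ⟪u, n⟫)
    (hthr : ∀ᵐ y : P2, y ∈ interior (K i) → (∃ n, InnerNormal V (ι i y) n ∧ 0 < ⟪u, n⟫) →
      Leaves V (Wall V K ι) (ι (!i) '' interior (K (!i))) (ι i y) u) :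
    ∫⁻ y in interior (K i), ∫⁻ t in Live V (Wall V K ι) (ι i y) u, (V ×ˢ ball (0 : E) 1).indicator
        (fun q => ENNReal.ofReal (rate f q)) (st V (Wall V K ι) (ι i y) u t) =
      (∫⁻ y in interior (K i), ∫⁻ t in Live V (Wall V K ι) (ι i y) u,
        (V ×ˢ ball (0 : E) 1).indicator
        (fun q => ENNReal.ofReal (-rate f q)) (st V (Wall V K ι) (ι i y) u t)) +
        volume {y | y ∈ interior (K i) ∧ InnerNormal V (ι i y) n} := by
  set Q : Set P2 := {y | y ∈ interior (K i) ∧ InnerNormal V (ι i y) n} with hQ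
  have hQm : MeasurableSet Q := (open_Q ho.toBody i n).measurableSet
  have h2 : ∫⁻ y in interior (K i), Q.indicator 1 y = volume Q := by
    rw [lintegral_indicator_one hQm, Measure.restrict_apply hQm]
    congr 1
    exact inter_eq_left.2 fun y hy => hy.1
  rw [← h2, ← lintegral_add_right _ (measurable_one.indicator hQm)]
  apply lintegral_congr_ae
  filter_upwards [ae_restrict_of_ae hthr, ae_restrict_mem isOpen_interior.measurableSet]
    with y hy hyK
  by_cases hyQ : y ∈ Q
  · rw [indicator_of_mem hyQ]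
    exact point ho.toBody i hU hVU hf h0 h1 hyK hu (hy hyK ⟨n, hyQ.2, hun⟩)
  · rw [indicator_of_notMem hyQ, add_zero]
    obtain ⟨n', hn', hpl', -⟩ := ho.toBody.end_normal i hyK
    rcases planeNormal_unique (ι i) hn hpl hn'.1 hpl' with h | h
    · exact absurd ⟨hyK, h ▸ hn'⟩ hyQ
    · have h3 : ⟪u, n'⟫ < 0 := by
        rw [h, inner_neg_right]
        linarith
      rw [live_empty hn' h3, Measure.restrict_empty, lintegral_zero_measure, lintegral_zero_measure]

theorem flux (ho : OpticalFiber V K ι) (i : Bool) {U : Set E} {f : E → ℝ} (hU : IsOpen U)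
    (hVU : closure V ⊆ U) (hf : ContDiffOn ℝ 1 f U) (h0 : ∀ y ∈ K i, f (ι i y) = 0)
    (h1 : ∀ y ∈ K (!i), f (ι (!i) y) = 1) :
    ∫⁻ q in Cset V K ι i ∩ {q | ‖q.2‖ < 1}, ENNReal.ofReal (rate f q) =
      (∫⁻ q in Cset V K ι i ∩ {q | ‖q.2‖ < 1}, ENNReal.ofReal (-rate f q)) +
        ENNReal.ofReal cB * volume (K i) := by
  have hb := ho.toBody
  obtain ⟨m, hm, hpl⟩ := planeNormal (ι i)
  have hm' : ‖-m‖ = 1 := by rw [norm_neg, hm]
  have hpl' : ∀ y z, ⟪ι i y - ι i z, -m⟫ = 0 := by
    intro y z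
    rw [inner_neg_right, hpl, neg_zero]
  set P : Set P2 := {y | y ∈ interior (K i) ∧ InnerNormal V (ι i y) m} with hP
  set N : Set P2 := {y | y ∈ interior (K i) ∧ InnerNormal V (ι i y) (-m)} with hN
  have hvol : volume (K i) = volume P + volume N := by
    rw [← measure_interior_of_null_frontier (hb.null i), ← measure_union _ (open_Q hb i (-m)).measurableSet]
    · congr 1
      ext y
      constructor
      · intro hy
        obtain ⟨n', hn', hpl₂, -⟩ := hb.end_normal i hy
        rcases planeNormal_unique (ι i) hm hpl hn'.1 hpl₂ with h | h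
        · exact Or.inl ⟨hy, h ▸ hn'⟩
        · exact Or.inr ⟨hy, h ▸ hn'⟩
      · rintro (h | h)
        · exact h.1
        · exact h.1
    · rw [Set.disjoint_left]
      rintro y ⟨-, hy⟩ ⟨-, hy'⟩
      have h2 := InnerNormal.unique hy hy'
      have h4 : (2 : ℝ) • m = 0 := by
        rw [two_smul]
        nth_rewrite 1 [h2]
        exact neg_add_cancel m
      have h3 : m = 0 := (smul_eq_zero.1 h4).resolve_left two_ne_zero
      rw [h3, norm_zero] at hm
      exact zero_ne_one hm
  have hg1 : Measurable ((V ×ˢ ball (0 : E) 1).indicator fun q : E × E => ENNReal.ofReal (rate f q)) :=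
    ind_meas hb.isOpen hU hVU hf continuous_id
  have hg2 : Measurable ((V ×ˢ ball (0 : E) 1).indicator
      fun q : E × E => ENNReal.ofReal (-rate f q)) :=
    ind_meas hb.isOpen hU hVU hf continuous_neg
  rw [in_set hb.isOpen, in_set hb.isOpen, susp hb i hm hpl hg1, susp hb i hm hpl hg2]
  have hsw : ∀ᵐ p : E × P2, p.2 ∈ interior (K i) →
      (∃ n, InnerNormal V (ι i p.2) n ∧ 0 < ⟪p.1, n⟫) →
      Leaves V (Wall V K ι) (ι (!i) '' interior (K (!i))) (ι i p.2) p.1 :=
    (Measure.measurePreserving_swap (μ := (volume : Measure E))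
      (ν := (volume : Measure P2))).quasiMeasurePreserving.ae (ho.through i)
  have hsw2 := Measure.ae_ae_of_ae_prod hsw
  set S1 : Set E := ball (0 : E) 1 ∩ {v | 0 < ⟪v, m⟫} with hS1
  set S2 : Set E := ball (0 : E) 1 ∩ {v | 0 < ⟪v, -m⟫} with hS2
  have hS1m : MeasurableSet S1 := by
    apply isOpen_ball.measurableSet.inter
    apply IsOpen.measurableSet
    apply isOpen_lt continuous_const
    fun_prop
  have hS2m : MeasurableSet S2 := by
    apply isOpen_ball.measurableSet.inter
    apply IsOpen.measurableSet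
    apply isOpen_lt continuous_const
    fun_prop
  set h : E → ℝ≥0∞ := fun u => S1.indicator (fun v => ENNReal.ofReal ⟪v, m⟫ * volume P) u +
    S2.indicator (fun v => ENNReal.ofReal ⟪v, -m⟫ * volume N) u with hh
  have hi1 : Measurable (S1.indicator fun v => ENNReal.ofReal ⟪v, m⟫ * volume P) := by
    apply Measurable.indicator _ hS1m
    apply Measurable.mul_const
    apply ENNReal.measurable_ofReal.comp
    apply Continuous.measurable
    fun_prop
  have hi2 : Measurable (S2.indicator fun v => ENNReal.ofReal ⟪v, -m⟫ * volume N) := by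
    apply Measurable.indicator _ hS2m
    apply Measurable.mul_const
    apply ENNReal.measurable_ofReal.comp
    apply Continuous.measurable
    fun_prop
  have hhm : Measurable h := hi1.add hi2
  have hhi : ∫⁻ u, h u = ENNReal.ofReal cB * volume (K i) := by
    rw [hh, lintegral_add_right _ hi2, lintegral_indicator hS1m, lintegral_indicator hS2m,
      lintegral_mul_const, lintegral_mul_const, lint_half hm, lint_half hm', hvol, mul_add]
    · apply ENNReal.measurable_ofReal.comp
      apply Continuous.measurable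
      fun_prop
    · apply ENNReal.measurable_ofReal.comp
      apply Continuous.measurable
      fun_prop
  rw [← hhi, ← lintegral_add_right _ hhm]
  apply lintegral_congr_ae
  filter_upwards [hsw2] with u hu
  by_cases hun : ‖u‖ < 1
  · rcases lt_trichotomy ⟪u, m⟫ 0 with h2 | h2 | h2
    · have h3 : 0 < ⟪u, -m⟫ := by
        rw [inner_neg_right]
        linarith
      have h4 := slice_add ho i hU hVU hf h0 h1 hm' hpl' hun h3 hu
      have h5 : h u = ENNReal.ofReal ⟪u, -m⟫ * volume N := by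
        show S1.indicator _ u + S2.indicator _ u = _
        rw [indicator_of_notMem (fun h6 => absurd h6.2 (not_lt.2 h2.le)), zero_add,
          indicator_of_mem (s := S2) ⟨mem_ball_zero_iff.2 hun, h3⟩]
      rw [h5, h4, mul_add]
      have h6 : |⟪u, m⟫| = ⟪u, -m⟫ := by
        rw [abs_of_neg h2, inner_neg_right]
      rw [h6]
    · have h5 : h u = 0 := by
        show S1.indicator _ u + S2.indicator _ u = _
        rw [indicator_of_notMem (fun h6 => absurd h6.2 (not_lt.2 h2.le)), zero_add,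
          indicator_of_notMem]
        intro h6
        have h7 : 0 < ⟪u, -m⟫ := h6.2
        rw [inner_neg_right, h2, neg_zero] at h7
        exact lt_irrefl 0 h7
      rw [h5, h2, abs_zero, ENNReal.ofReal_zero, zero_mul, zero_mul, add_zero]
    · have h4 := slice_add ho i hU hVU hf h0 h1 hm hpl hun h2 hu
      have h5 : h u = ENNReal.ofReal ⟪u, m⟫ * volume P := by
        show S1.indicator _ u + S2.indicator _ u = _
        rw [indicator_of_mem (s := S1) ⟨mem_ball_zero_iff.2 hun, h2⟩, indicator_of_notMem, add_zero]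
        intro h6
        have h7 : 0 < ⟪u, -m⟫ := h6.2
        rw [inner_neg_right] at h7
        linarith
      rw [h5, h4, mul_add, abs_of_pos h2]
  · have h5 : h u = 0 := by
      show S1.indicator _ u + S2.indicator _ u = _
      rw [indicator_of_notMem (fun h6 => hun (mem_ball_zero_iff.1 h6.1)), zero_add,
        indicator_of_notMem (fun h6 => hun (mem_ball_zero_iff.1 h6.1))]
    have h6 : ∀ (F : E × E → ℝ≥0∞) (y : P2), ∫⁻ t in Live V (Wall V K ι) (ι i y) u,
        (V ×ˢ ball (0 : E) 1).indicator F (st V (Wall V K ι) (ι i y) u t) = 0 := by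
      intro F y
      rw [setLIntegral_congr_fun (g := fun _ => 0) (live_isOpen hb.isOpen).measurableSet ?_,
        lintegral_zero]
      intro t ht
      apply indicator_of_notMem
      intro h7
      obtain ⟨-, k, h8⟩ := live_spec ht
      have h9 := mem_ball_zero_iff.1 h7.2
      rw [h8.norm] at h9
      exact hun h9
    simp only [h6, h5, add_zero]

end Pool.Agent.Work.MP_d70a14_gt

end
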