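import Pool.Agent.Work.MP_d70a14_gt.C.Transfer

/-! # Conserved quantities have the same distribution on the two ends (M-L)

Let `Z_j, T_j` be from `zmap` for the end `j`.  On the open set `Cset false ∩ Dset true` the total time
`τ q = T_true (q.1, q.2) + T_false (q.1, -q.2)` is continuous and positive.  Let `g q = I q * ofReal (τ q)⁻¹` there and `0` elsewhere (measurable).
(1) `susp` for `i = false` (`m = m false`): for a.e. `(u, y)`, `y ∈ interior (K false)`: if `⟪u, n⟫ > 0` (`n = ± m` the inner normal) the ray leaves at a time `T` through the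
end `true`; for all `t ∈ Live` (all of `(0, T)` except finitely many, `exit_live`) the state `st t` is in `Cset false ∩ Dset true`, with
`T_false (reversed) = t` and `T_true = T - t` (`Flow.cut`, `exit_unique`), so `τ = T`, and `I (st t) = I (ι y, u)` (`hcons`).  So the inner integral is
`I (ι y, u) * T⁻¹ * T = I (ι y, u)`.  If `⟪u, n⟫ < 0` then `Live = ∅`.  Hence
`∫⁻ q in Cset false, g q = ∫⁻ u, |⟪u, m⟫| ∫⁻ y in interior (K false), 1_{⟪u, n y⟫ > 0} I (ι y, u) = (1/2) J false` with `J i` the integral in the statement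
(replace `u` by `-u`: `I (x, -u) = I (x, u)`; Tonelli; the case `⟪u, n⟫ = 0` has weight `0`; `n y = ± m` measurable in `y` as in C/FluxF).
(2) the same for `i = true` with `g' q = I q * ofReal (T_false (q.1, q.2) + T_true (q.1, -q.2))⁻¹` on `Cset true ∩ Dset false`: `∫⁻ q in Cset true, g' q = (1/2) J true`.
(3) `g' (x, v) = g (x, -v)`, and `(x, v) ∈ Cset true ∩ Dset false` iff `(x, -v) ∈ Dset true ∩ Cset false`; the flip preserves the volume and up to null sets
`Cset false = Dset true` (`ae_cset_iff`): the two left sides agree. -/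

open MeasureTheory Set Metric Filter Topology
open scoped RealInnerProductSpace ContDiff ENNReal

noncomputable section

namespace Pool.Agent.Work.MP_d70a14_gt

variable {V : Set E} {K : Bool → Set P2} {ι : Bool → P2 →ᵃⁱ[ℝ] E}

private theorem open_Q (hb : Body V K ι) (i : Bool) (n : E) :
    IsOpen {y | y ∈ interior (K i) ∧ InnerNormal V (ι i y) n} := by
  rw [isOpen_iff_mem_nhds]
  rintro y ⟨hy, hyn⟩
  obtain ⟨n', hn', hpl, r, hr, hball⟩ := hb.end_normal i hy
  have hnn := InnerNormal.unique hn' hyn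
  subst hnn
  filter_upwards [isOpen_interior.mem_nhds hy, ball_mem_nhds y hr] with z hz hzr
  refine ⟨hz, ?_⟩
  obtain ⟨n₂, hn₂, hpl₂, r₂, hr₂, hball₂⟩ := hb.end_normal i hz
  have hpl' : ∀ a b, ⟪ι i a - ι i b, n'⟫ = 0 := by
    intro a b
    have h1 := hpl a
    have h2 := hpl b
    have h3 : ι i a - ι i b = (ι i a - ι i y) - (ι i b - ι i y) := by abel
    rw [h3, inner_sub_left, h1, h2, sub_zero]
  rcases planeNormal_unique (ι i) hn'.1 hpl' hn₂.1 hpl₂ with h | h
  · rw [← h]
    exact hn₂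
  · exfalso
    have hd : dist (ι i z) (ι i y) < r := by
      rw [(ι i).dist_map]
      exact hzr
    obtain ⟨s, hs, hs'⟩ := exists_between (lt_min hr₂ (sub_pos.2 hd))
    have hx1 : ι i z + s • n' ∈ ball (ι i z) r₂ := by
      rw [mem_ball, dist_eq_norm, add_sub_cancel_left, norm_smul, hn'.1, mul_one, Real.norm_eq_abs,
        abs_of_pos hs]
      exact hs'.trans_le (min_le_left _ _)
    have hx2 : ι i z + s • n' ∈ ball (ι i y) r := by
      rw [mem_ball]
      have h1 : dist (ι i z + s • n') (ι i z) = s := by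
        rw [dist_eq_norm, add_sub_cancel_left, norm_smul, hn'.1, mul_one, Real.norm_eq_abs,
          abs_of_pos hs]
      have h2 := dist_triangle (ι i z + s • n') (ι i z) (ι i y)
      rw [h1] at h2
      have h3 := hs'.trans_le (min_le_right _ _)
      linarith
    have hnn : ⟪n', n'⟫ = 1 := by
      rw [real_inner_self_eq_norm_sq, hn'.1]
      norm_num
    have h1 : ι i z + s • n' ∈ V := by
      rw [hball _ hx2]
      have h2 : ι i z + s • n' - ι i y = (ι i z - ι i y) + s • n' := by abel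
      rw [h2, inner_add_left, hpl z, real_inner_smul_left, hnn]
      linarith
    rw [hball₂ _ hx1, h, add_sub_cancel_left, inner_neg_right, real_inner_smul_left, hnn] at h1
    linarith

private theorem live_empty {W : Set E} {y u n : E} (hn : InnerNormal V y n) (hu : ⟪u, n⟫ < 0) :
    Live V W y u = ∅ := by
  rw [eq_empty_iff_forall_notMem]
  rintro t ⟨k, x, v, -, hF⟩
  have h0 : ∃ t₁ : ℝ, 0 < t₁ ∧ ∀ s : ℝ, 0 < s → s < t₁ → y + s • u ∈ V := by
    cases hF with
    | free ht hf => exact ⟨t, ht, hf⟩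
    | refl ht hf _ _ _ _ => exact ⟨_, ht, hf⟩
  obtain ⟨t₁, ht₁, h1⟩ := h0
  have h2 : ∀ᶠ s : ℝ in 𝓝[>] 0, s ∈ Ioo 0 t₁ := Ioo_mem_nhdsGT ht₁
  obtain ⟨s, hs1, hs2⟩ := ((hn.outward hu).and h2).exists
  exact hs1 (h1 s hs2.1 hs2.2)

private def wt (V : Set E) (K : Bool → Set P2) (ι : Bool → P2 →ᵃⁱ[ℝ] E) (T : Bool → E × E → ℝ)
    (i : Bool) : E × E → ℝ≥0∞ :=
  (Cset V K ι i ∩ Dset V K ι (!i)).indicator
    (fun q => (ENNReal.ofReal (T (!i) q + T i (q.1, -q.2)))⁻¹)

private theorem wt_meas (hb : Body V K ι) {T : Bool → E × E → ℝ}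
    (hTc : ∀ j, ContinuousOn (T j) (Dset V K ι j)) (i : Bool) : Measurable (wt V K ι T i) := by
  classical
  obtain ⟨-, -, hD, -⟩ := zmap hb (!i)
  have hC := cset_isOpen hb i
  have h1 : ContinuousOn (fun q : E × E => (ENNReal.ofReal (T (!i) q + T i (q.1, -q.2)))⁻¹)
      (Cset V K ι i ∩ Dset V K ι (!i)) := by
    apply (continuous_inv (G := ℝ≥0∞)).comp_continuousOn
    apply ENNReal.continuous_ofReal.comp_continuousOn
    apply ContinuousOn.add
    · exact (hTc (!i)).mono inter_subset_right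
    · have h2 : Continuous fun q : E × E => (q.1, -q.2) := by fun_prop
      exact (hTc i).comp h2.continuousOn (fun q hq => hq.1)
  unfold wt
  rw [← piecewise_eq_indicator]
  exact h1.measurable_piecewise continuousOn_const (hC.inter hD).measurableSet

private theorem wt_flip {T : Bool → E × E → ℝ} (q : E × E) :
    wt V K ι T true (q.1, -q.2) = wt V K ι T false q := by
  have h1 : (q.1, - -q.2) = q := by rw [neg_neg]
  have h2 : ((q.1, -q.2) ∈ Cset V K ι true ∩ Dset V K ι (!true)) ↔
      q ∈ Cset V K ι false ∩ Dset V K ι (!false) := by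
    constructor
    · rintro ⟨h3, h4⟩
      have h5 : (q.1, - -q.2) ∈ Dset V K ι true := h3
      rw [h1] at h5
      exact ⟨h4, h5⟩
    · rintro ⟨h3, h4⟩
      refine ⟨?_, h3⟩
      show (q.1, - -q.2) ∈ Dset V K ι true
      rw [h1]
      exact h4
  unfold wt
  by_cases h3 : q ∈ Cset V K ι false ∩ Dset V K ι (!false)
  · rw [indicator_of_mem h3, indicator_of_mem (h2.2 h3)]
    show (ENNReal.ofReal (T false (q.1, -q.2) + T true (q.1, - -q.2)))⁻¹ =
      (ENNReal.ofReal (T true q + T false (q.1, -q.2)))⁻¹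
    rw [h1, add_comm]
  · rw [indicator_of_notMem h3, indicator_of_notMem (fun h4 => h3 (h2.1 h4))]

private theorem point (hb : Body V K ι) {I : E × E → ℝ≥0∞}
    (hcons : ∀ k x v t y w, Flow V (Wall V K ι) k x v t y w → I (y, w) = I (x, v))
    {T : Bool → E × E → ℝ}
    (hT : ∀ j, ∀ q ∈ Dset V K ι j, ∃ k y w n, Flow V (Wall V K ι) k q.1 q.2 (T j q) y w ∧
        y ∈ ι j '' interior (K j) ∧ InnerNormal V y n ∧ ⟪w, n⟫ < 0)
    (i : Bool) {y : P2} (hy : y ∈ interior (K i)) {u n : E} (hn : InnerNormal V (ι i y) n)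
    (hun : 0 < ⟪u, n⟫)
    (hL : Leaves V (Wall V K ι) (ι (!i) '' interior (K (!i))) (ι i y) u) :
    ∫⁻ t in Live V (Wall V K ι) (ι i y) u, I (st V (Wall V K ι) (ι i y) u t) *
      wt V K ι T i (st V (Wall V K ι) (ι i y) u t) = I (ι i y, u) := by
  have hL' := hL
  obtain ⟨k, S, y₂, w, n₂, hF, hy₂, -, -⟩ := hL
  have hd := end_disjoint hb (!i)
  have hd' := end_disjoint hb i
  have hex := exit_live hb.isOpen Body.wall_sub hF (Set.disjoint_left.1 hd.1 hy₂)
    (Set.disjoint_left.1 hd.2 hy₂)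
  have hLm : MeasurableSet (Live V (Wall V K ι) (ι i y) u) := (live_isOpen hb.isOpen).measurableSet
  have hae : (Live V (Wall V K ι) (ι i y) u : Set ℝ) =ᵐ[volume] Ioo 0 S :=
    hex.1.eventuallyLE.antisymm (ae_le_set.2 (hex.2.measure_zero volume))
  have hSpos := hF.pos
  have hyi : ι i y ∈ ι i '' interior (K i) := ⟨y, hy, rfl⟩
  have hval : ∀ t ∈ Live V (Wall V K ι) (ι i y) u, I (st V (Wall V K ι) (ι i y) u t) *
      wt V K ι T i (st V (Wall V K ι) (ι i y) u t) = I (ι i y, u) * (ENNReal.ofReal S)⁻¹ := by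
    intro t ht
    obtain ⟨hxV, k', hF'⟩ := live_spec ht
    obtain ⟨k'', hFb⟩ := back_live ht
    have hLv := leaves_live hb.isOpen Body.wall_sub hd.1 hd.2 hL' ht
    set q := st V (Wall V K ι) (ι i y) u t with hq
    have hDq : q ∈ Dset V K ι (!i) := ⟨hxV, hLv⟩
    have hune : ⟪-u, n⟫ ≠ 0 := by
      rw [inner_neg_left]
      exact (neg_neg_of_pos hun).ne
    have hCq : q ∈ Cset V K ι i := ⟨hxV, k'', t, ι i y, -u, n, hFb, hyi, hn, hune⟩
    have hI : I q = I (ι i y, u) := hcons _ _ _ _ _ _ hF'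
    have hT1 : T i (q.1, -q.2) = t := by
      obtain ⟨k₁, y₁, w₁, n₁, h1, h2, h3, h4⟩ := hT i (q.1, -q.2) hCq
      exact (Flow.exit_unique hb.isOpen Body.wall_sub h1 hFb
        (Set.disjoint_left.1 hd'.1 h2) (Set.disjoint_left.1 hd'.2 h2)
        (Set.disjoint_left.1 hd'.1 hyi) (Set.disjoint_left.1 hd'.2 hyi)).1
    have hT2 : T (!i) q = S - t := by
      obtain ⟨k₁, y₁, w₁, n₁, h1, h2, h3, h4⟩ := hT (!i) q hDq
      have ht' := hex.1 ht
      obtain ⟨j, y', w', h5, h6⟩ := Flow.cut hF ht'.1 ht'.2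
      obtain ⟨-, h7, h8⟩ := Flow.det hb.isOpen Body.wall_sub h5 hF'
      rcases h6 with ⟨-, j', -, h6⟩ | h6
      · rw [h7, h8] at h6
        exact (Flow.exit_unique hb.isOpen Body.wall_sub h1 h6
          (Set.disjoint_left.1 hd.1 h2) (Set.disjoint_left.1 hd.2 h2)
          (Set.disjoint_left.1 hd.1 hy₂) (Set.disjoint_left.1 hd.2 hy₂)).1
      · exfalso
        have h9 := Body.wall_sub h6
        rw [hb.isOpen.frontier_eq] at h9
        exact h9.2 (h7 ▸ hxV)
    have hw : wt V K ι T i q = (ENNReal.ofReal S)⁻¹ := by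
      unfold wt
      rw [indicator_of_mem (s := Cset V K ι i ∩ Dset V K ι (!i)) ⟨hCq, hDq⟩, hT1, hT2]
      congr 2
      ring
    rw [hI, hw]
  rw [setLIntegral_congr_fun hLm hval, setLIntegral_congr hae, setLIntegral_const, Real.volume_Ioo,
    sub_zero, mul_assoc, ENNReal.inv_mul_cancel (ENNReal.ofReal_pos.2 hSpos).ne' ENNReal.ofReal_ne_top,
    mul_one]

private theorem slice_eq (ho : OpticalFiber V K ι) {I : E × E → ℝ≥0∞}
    (hcons : ∀ k x v t y w, Flow V (Wall V K ι) k x v t y w → I (y, w) = I (x, v))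
    {T : Bool → E × E → ℝ}
    (hT : ∀ j, ∀ q ∈ Dset V K ι j, ∃ k y w n, Flow V (Wall V K ι) k q.1 q.2 (T j q) y w ∧
        y ∈ ι j '' interior (K j) ∧ InnerNormal V y n ∧ ⟪w, n⟫ < 0)
    (i : Bool) {n : E} (hn : ‖n‖ = 1) (hpl : ∀ y z, ⟪ι i y - ι i z, n⟫ = 0) {u : E}
    (hun : 0 < ⟪u, n⟫)
    (hthr : ∀ᵐ y : P2, y ∈ interior (K i) → (∃ n, InnerNormal V (ι i y) n ∧ 0 < ⟪u, n⟫) →
      Leaves V (Wall V K ι) (ι (!i) '' interior (K (!i))) (ι i y) u) :
    ∫⁻ y in interior (K i), ∫⁻ t in Live V (Wall V K ι) (ι i y) u,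
        I (st V (Wall V K ι) (ι i y) u t) * wt V K ι T i (st V (Wall V K ι) (ι i y) u t) =
      ∫⁻ y in {y | y ∈ interior (K i) ∧ InnerNormal V (ι i y) n}, I (ι i y, u) := by
  set Q : Set P2 := {y | y ∈ interior (K i) ∧ InnerNormal V (ι i y) n} with hQ
  have hQm : MeasurableSet Q := (open_Q ho.toBody i n).measurableSet
  have h2 : ∫⁻ y in interior (K i), Q.indicator (fun y => I (ι i y, u)) y =
      ∫⁻ y in Q, I (ι i y, u) := by
    rw [setLIntegral_indicator hQm]
    congr 2
    exact inter_eq_left.2 fun y hy => hy.1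
  rw [← h2]
  apply lintegral_congr_ae
  filter_upwards [ae_restrict_of_ae hthr, ae_restrict_mem isOpen_interior.measurableSet]
    with y hy hyK
  by_cases hyQ : y ∈ Q
  · rw [indicator_of_mem hyQ]
    exact point ho.toBody hcons hT i hyK hyQ.2 hun (hy hyK ⟨n, hyQ.2, hun⟩)
  · rw [indicator_of_notMem hyQ]
    obtain ⟨n', hn', hpl', -⟩ := ho.toBody.end_normal i hyK
    rcases planeNormal_unique (ι i) hn hpl hn'.1 hpl' with h | h
    · exact absurd ⟨hyK, h ▸ hn'⟩ hyQ
    · have h3 : ⟪u, n'⟫ < 0 := by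
        rw [h, inner_neg_right]
        linarith
      rw [live_empty hn' h3, Measure.restrict_empty, lintegral_zero_measure]

private theorem half (ho : OpticalFiber V K ι) {I : E × E → ℝ≥0∞} (hI : Measurable I)
    (hcons : ∀ k x v t y w, Flow V (Wall V K ι) k x v t y w → I (y, w) = I (x, v))
    (heven : ∀ x v, I (x, -v) = I (x, v)) {T : Bool → E × E → ℝ}
    (hT : ∀ j, ∀ q ∈ Dset V K ι j, ∃ k y w n, Flow V (Wall V K ι) k q.1 q.2 (T j q) y w ∧
        y ∈ ι j '' interior (K j) ∧ InnerNormal V y n ∧ ⟪w, n⟫ < 0)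
    (hTc : ∀ j, ContinuousOn (T j) (Dset V K ι j))
    (i : Bool) {m : E} (hm : ‖m‖ = 1) (hpl : ∀ y z, ⟪ι i y - ι i z, m⟫ = 0) :
    ∫⁻ u : E, ENNReal.ofReal |⟪u, m⟫| * ∫⁻ y in interior (K i), I (ι i y, u) =
      2 * ∫⁻ q, I q * wt V K ι T i q := by
  have hb := ho.toBody
  have hm' : ‖-m‖ = 1 := by rw [norm_neg, hm]
  have hpl' : ∀ y z, ⟪ι i y - ι i z, -m⟫ = 0 := by
    intro y z
    rw [inner_neg_right, hpl, neg_zero]
  have hCm : MeasurableSet (Cset V K ι i) := (cset_isOpen hb i).measurableSet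
  have e0 : ∫⁻ q, I q * wt V K ι T i q = ∫⁻ q in Cset V K ι i, I q * wt V K ι T i q := by
    rw [← lintegral_indicator hCm]
    refine lintegral_congr fun q => ?_
    by_cases hq : q ∈ Cset V K ι i
    · rw [indicator_of_mem hq]
    · rw [indicator_of_notMem hq]
      unfold wt
      rw [indicator_of_notMem (fun h => hq h.1), mul_zero]
  have hgm : Measurable fun q => I q * wt V K ι T i q := hI.mul (wt_meas hb hTc i)
  rw [e0, susp hb i hm hpl hgm]
  set P : Set P2 := {y | y ∈ interior (K i) ∧ InnerNormal V (ι i y) m} with hP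
  set N : Set P2 := {y | y ∈ interior (K i) ∧ InnerNormal V (ι i y) (-m)} with hN
  have hun : interior (K i) = P ∪ N := by
    ext y
    constructor
    · intro hy
      obtain ⟨n', hn', hpl₂, -⟩ := hb.end_normal i hy
      rcases planeNormal_unique (ι i) hm hpl hn'.1 hpl₂ with h | h
      · exact Or.inl ⟨hy, h ▸ hn'⟩
      · exact Or.inr ⟨hy, h ▸ hn'⟩
    · rintro (h | h)
      · exact h.1
      · exact h.1
  have hdisj : Disjoint P N := by
    rw [Set.disjoint_left]
    rintro y ⟨-, hy⟩ ⟨-, hy'⟩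
    have h2 := InnerNormal.unique hy hy'
    have h4 : (2 : ℝ) • m = 0 := by
      rw [two_smul]
      nth_rewrite 1 [h2]
      exact neg_add_cancel m
    have h3 : m = 0 := (smul_eq_zero.1 h4).resolve_left two_ne_zero
    rw [h3, norm_zero] at hm
    exact zero_ne_one hm
  have hsplit : ∀ u, ∫⁻ y in interior (K i), I (ι i y, u) =
      (∫⁻ y in P, I (ι i y, u)) + ∫⁻ y in N, I (ι i y, u) := by
    intro u
    rw [hun, lintegral_union (open_Q hb i (-m)).measurableSet hdisj]
  have hmeasI : Measurable fun z : E × P2 => I (ι i z.2, z.1) := by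
    apply hI.comp
    apply Continuous.measurable
    have : Continuous (ι i) := (ι i).continuous
    fun_prop
  have hPm : Measurable fun u : E => ∫⁻ y in P, I (ι i y, u) :=
    hmeasI.lintegral_prod_right'
  have hNm : Measurable fun u : E => ∫⁻ y in N, I (ι i y, u) :=
    hmeasI.lintegral_prod_right'
  have habs : Measurable fun u : E => ENNReal.ofReal |⟪u, m⟫| := by
    apply ENNReal.measurable_ofReal.comp
    apply Continuous.measurable
    fun_prop
  set S1 : Set E := {v | 0 < ⟪v, m⟫} with hS1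
  set S2 : Set E := {v | 0 < ⟪v, -m⟫} with hS2
  have hS1m : MeasurableSet S1 := by
    apply IsOpen.measurableSet
    apply isOpen_lt continuous_const
    fun_prop
  have hS2m : MeasurableSet S2 := by
    apply IsOpen.measurableSet
    apply isOpen_lt continuous_const
    fun_prop
  set A : E → ℝ≥0∞ := fun u =>
    S1.indicator (fun u => ENNReal.ofReal |⟪u, m⟫| * ∫⁻ y in P, I (ι i y, u)) u +
    S2.indicator (fun u => ENNReal.ofReal |⟪u, m⟫| * ∫⁻ y in N, I (ι i y, u)) u with hA
  have hAm : Measurable A :=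
    ((habs.mul hPm).indicator hS1m).add ((habs.mul hNm).indicator hS2m)
  have hsw : ∀ᵐ p : E × P2, p.2 ∈ interior (K i) →
      (∃ n, InnerNormal V (ι i p.2) n ∧ 0 < ⟪p.1, n⟫) →
      Leaves V (Wall V K ι) (ι (!i) '' interior (K (!i))) (ι i p.2) p.1 :=
    (Measure.measurePreserving_swap (μ := (volume : Measure E))
      (ν := (volume : Measure P2))).quasiMeasurePreserving.ae (ho.through i)
  have hsw2 := Measure.ae_ae_of_ae_prod hsw
  have e1 : ∫⁻ u : E, ENNReal.ofReal |⟪u, m⟫| *
      ∫⁻ y in interior (K i), ∫⁻ t in Live V (Wall V K ι) (ι i y) u,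
        I (st V (Wall V K ι) (ι i y) u t) * wt V K ι T i (st V (Wall V K ι) (ι i y) u t) =
      ∫⁻ u, A u := by
    apply lintegral_congr_ae
    filter_upwards [hsw2] with u hu
    rcases lt_trichotomy ⟪u, m⟫ 0 with h2 | h2 | h2
    · have h3 : 0 < ⟪u, -m⟫ := by
        rw [inner_neg_right]
        linarith
      rw [slice_eq ho hcons hT i hm' hpl' h3 hu]
      show _ = S1.indicator _ u + S2.indicator _ u
      rw [indicator_of_notMem (s := S1) (fun h6 => absurd h6 (not_lt.2 h2.le)), zero_add,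
        indicator_of_mem (s := S2) h3]
    · rw [h2, abs_zero, ENNReal.ofReal_zero, zero_mul]
      show _ = S1.indicator _ u + S2.indicator _ u
      rw [indicator_of_notMem (s := S1) (fun h6 => absurd h6 (not_lt.2 h2.le)), zero_add,
        indicator_of_notMem (s := S2)]
      intro h6
      have h7 : 0 < ⟪u, -m⟫ := h6
      rw [inner_neg_right, h2, neg_zero] at h7
      exact lt_irrefl 0 h7
    · rw [slice_eq ho hcons hT i hm hpl h2 hu]
      show _ = S1.indicator _ u + S2.indicator _ u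
      rw [indicator_of_mem (s := S1) h2, indicator_of_notMem (s := S2), add_zero]
      intro h6
      have h7 : 0 < ⟪u, -m⟫ := h6
      rw [inner_neg_right] at h7
      linarith
  have hinv : ∀ u, (∫⁻ y in P, I (ι i y, -u)) = ∫⁻ y in P, I (ι i y, u) := fun u =>
    lintegral_congr fun y => heven _ _
  have hinv' : ∀ u, (∫⁻ y in N, I (ι i y, -u)) = ∫⁻ y in N, I (ι i y, u) := fun u =>
    lintegral_congr fun y => heven _ _
  have e2 : ∀ u, ENNReal.ofReal |⟪u, m⟫| * ∫⁻ y in interior (K i), I (ι i y, u) = A u + A (-u) := by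
    intro u
    rw [hsplit u]
    show _ = (S1.indicator _ u + S2.indicator _ u) + (S1.indicator _ (-u) + S2.indicator _ (-u))
    rcases lt_trichotomy ⟪u, m⟫ 0 with h2 | h2 | h2
    · have h3 : u ∈ S2 := by
        show 0 < ⟪u, -m⟫
        rw [inner_neg_right]
        linarith
      have h4 : u ∉ S1 := fun h6 => absurd h6 (not_lt.2 h2.le)
      have h5 : -u ∈ S1 := by
        show 0 < ⟪-u, m⟫
        rw [inner_neg_left]
        linarith
      have h6 : -u ∉ S2 := by
        intro h6
        have h7 : 0 < ⟪-u, -m⟫ := h6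
        rw [inner_neg_neg] at h7
        linarith
      rw [indicator_of_mem h3, indicator_of_notMem h4, indicator_of_mem h5, indicator_of_notMem h6,
        hinv, inner_neg_left, abs_neg, zero_add, add_zero, mul_add, add_comm]
    · have h3 : ∀ F : E → ℝ≥0∞, S1.indicator F u = 0 := fun F =>
        indicator_of_notMem (s := S1) (fun h6 => absurd h6 (not_lt.2 h2.le)) _
      have h4 : ∀ F : E → ℝ≥0∞, S2.indicator F u = 0 := fun F => by
        apply indicator_of_notMem
        intro h6
        have h7 : 0 < ⟪u, -m⟫ := h6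
        rw [inner_neg_right, h2, neg_zero] at h7
        exact lt_irrefl 0 h7
      have h5 : ∀ F : E → ℝ≥0∞, S1.indicator F (-u) = 0 := fun F => by
        apply indicator_of_notMem
        intro h6
        have h7 : 0 < ⟪-u, m⟫ := h6
        rw [inner_neg_left, h2, neg_zero] at h7
        exact lt_irrefl 0 h7
      have h6 : ∀ F : E → ℝ≥0∞, S2.indicator F (-u) = 0 := fun F => by
        apply indicator_of_notMem
        intro h6
        have h7 : 0 < ⟪-u, -m⟫ := h6
        rw [inner_neg_neg, h2] at h7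
        exact lt_irrefl 0 h7
      rw [h3, h4, h5, h6, h2, abs_zero, ENNReal.ofReal_zero, zero_mul, add_zero, add_zero]
    · have h3 : -u ∈ S2 := by
        show 0 < ⟪-u, -m⟫
        rw [inner_neg_neg]
        exact h2
      have h4 : u ∈ S1 := h2
      have h5 : -u ∉ S1 := by
        intro h6
        have h7 : 0 < ⟪-u, m⟫ := h6
        rw [inner_neg_left] at h7
        linarith
      have h6 : u ∉ S2 := by
        intro h6
        have h7 : 0 < ⟪u, -m⟫ := h6
        rw [inner_neg_right] at h7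
        linarith
      rw [indicator_of_mem h3, indicator_of_mem h4, indicator_of_notMem h5, indicator_of_notMem h6,
        hinv', inner_neg_left, abs_neg, zero_add, add_zero, mul_add]
  rw [e1]
  simp only [e2]
  rw [lintegral_add_left hAm, lintegral_neg_eq_self, two_mul]

theorem fluxI (ho : OpticalFiber V K ι) {I : E × E → ℝ≥0∞} (hI : Measurable I)
    (hcons : ∀ k x v t y w, Flow V (Wall V K ι) k x v t y w → I (y, w) = I (x, v))
    (heven : ∀ x v, I (x, -v) = I (x, v)) {m : Bool → E} (hm : ∀ i, ‖m i‖ = 1)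
    (hι : ∀ i y z, ⟪ι i y - ι i z, m i⟫ = 0) :
    ∫⁻ u : E, ENNReal.ofReal |⟪u, m false⟫| * ∫⁻ y in interior (K false), I (ι false y, u) =
      ∫⁻ u : E, ENNReal.ofReal |⟪u, m true⟫| * ∫⁻ y in interior (K true), I (ι true y, u) := by
  have hb := ho.toBody
  choose Z T hopen hspec hTc hder hinj using fun j => zmap hb j
  have hT : ∀ j, ∀ q ∈ Dset V K ι j, ∃ k y w n, Flow V (Wall V K ι) k q.1 q.2 (T j q) y w ∧
      y ∈ ι j '' interior (K j) ∧ InnerNormal V y n ∧ ⟪w, n⟫ < 0 := by
    intro j q hq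
    obtain ⟨k, y, w, n, h1, h2, h3, h4, -⟩ := hspec j q hq
    exact ⟨k, y, w, n, h1, h2, h3, h4⟩
  rw [half ho hI hcons heven hT hTc false (hm false) (hι false),
    half ho hI hcons heven hT hTc true (hm true) (hι true)]
  congr 1
  have h1 : MeasurePreserving (Prod.map (id : E → E) (Neg.neg : E → E)) (volume.prod volume)
      (volume.prod volume) :=
    (MeasurePreserving.id _).prod (Measure.measurePreserving_neg _)
  have h2 := h1.lintegral_comp (hI.mul (wt_meas hb hTc true))
  have h3 : ∀ q : E × E, I q * wt V K ι T false q =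
      (I * wt V K ι T true) (Prod.map (id : E → E) (Neg.neg : E → E) q) := by
    intro q
    show _ = I (q.1, -q.2) * wt V K ι T true (q.1, -q.2)
    rw [wt_flip, heven]
  calc ∫⁻ q, I q * wt V K ι T false q
      = ∫⁻ q, (I * wt V K ι T true) (Prod.map (id : E → E) (Neg.neg : E → E) q) :=
        lintegral_congr h3
    _ = ∫⁻ q, I q * wt V K ι T true q := h2

end Pool.Agent.Work.MP_d70a14_gt

end
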