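import Pool.Agent.Work.MP_d70a14_gt.C.Transfer

/-! # If `f` increases along the light then the light fills half spaces (S-M)

For a.e. `q = (x, v)` with `x ∈ V`: `q ∈ Dset false ∪ Dset true` (`ae_out`), so (`ae_cset_iff`, `ae_flip`) `q ∈ Cset false ∪ Cset true`; `q ∈ Cset true` implies
`q ∈ Dset false` a.e., i.e. `q' = (x, -v) ∈ Cset false`, and then `0 ≤ rate f q' = -rate f q`.  So `rate f q > 0` forces `q ∈ Cset false`; and
`rate f q < 0` excludes `q ∈ Cset false` by the hypothesis. -/

open MeasureTheory Set Metric Filter Topology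
open scoped RealInnerProductSpace ContDiff ENNReal

noncomputable section

namespace Pool.Agent.Work.MP_d70a14_gt

variable {V : Set E} {K : Bool → Set P2} {ι : Bool → P2 →ᵃⁱ[ℝ] E}

theorem mono_half (ho : OpticalFiber V K ι) {f : E → ℝ}
    (hmono : ∀ᵐ q : E × E, q ∈ Cset V K ι false → 0 ≤ rate f q) : Half V K ι f := by
  have h1 := ae_flip (ae_out ho)
  have h2 := ae_flip hmono
  unfold Half
  filter_upwards [h1, h2, hmono, ae_cset_iff ho true] with q h1 h2 h3 h4 hV _
  have h5 : rate f (q.1, -q.2) = -rate f q := by
    unfold rate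
    rw [inner_neg_right]
  constructor
  · intro hr
    rcases h1 hV with h | h
    · exact h
    · exfalso
      have h6 : q ∈ Dset V K ι false := h4.1 h
      have h7 : (q.1, -q.2) ∈ Cset V K ι false := by
        show (q.1, - -q.2) ∈ Dset V K ι false
        rw [neg_neg]
        exact h6
      have h8 := h2 h7
      rw [h5] at h8
      linarith
  · intro hr h
    exact absurd (h3 h) (not_le.2 hr)

end Pool.Agent.Work.MP_d70a14_gt

end
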