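import Pool.Agent.Work.MP_d70a14_gt.Defs

/-! # Oblique Fubini (M)

For fixed `u` with `⟪u, m⟫ ≠ 0` the map `Λ : P2 × ℝ → E`, `Λ (y, t) = ι y + t u` is an affine bijection; its linear part is
`(y, t) ↦ ι.linear y + t u`.  For `u = m` it is a linear isometry from `WithLp 2 (P2 × ℝ)`, so it preserves the volume (choose an orthonormal basis, or
`LinearIsometryEquiv.measurePreserving`, and `volume` on `WithLp 2 (P2 × ℝ)` against the product: `WithLp.volume_preserving_...`/`EuclideanSpace` with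
`MeasurableEquiv.piFinSuccAbove`; any way is fine).  For general `u = a + ⟪u, m⟫ m` with `a` parallel to the plane:
`ι y + t u = (ι (y + t a') ) + t ⟪u, m⟫ m` where `a'` is the plane vector of `a`; so for fixed `t` translate `y` (translation invariance of `∫⁻ y`) and then
rescale `t` (`Measure.addHaar_smul`/`lintegral` over `ℝ` with `t ↦ c t`: factor `|c|⁻¹`). -/

open MeasureTheory Set Metric Filter Topology
open scoped RealInnerProductSpace ContDiff ENNReal

noncomputable section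

namespace Pool.Agent.Work.MP_d70a14_gt

private def lin (a : P2 →ᵃⁱ[ℝ] E) (m : E) : WithLp 2 (P2 × ℝ) →ₗ[ℝ] E :=
  ((a.linearIsometry.toLinearMap.comp (LinearMap.fst ℝ P2 ℝ)) +
    ((LinearMap.toSpanSingleton ℝ E m).comp (LinearMap.snd ℝ P2 ℝ))).comp
    (WithLp.linearEquiv 2 ℝ (P2 × ℝ)).toLinearMap

private theorem lin_apply (a : P2 →ᵃⁱ[ℝ] E) (m : E) (z : WithLp 2 (P2 × ℝ)) :
    lin a m z = a.linearIsometry z.fst + z.snd • m := rfl

private theorem lin_orth {a : P2 →ᵃⁱ[ℝ] E} {m : E} (ha : ∀ y z, ⟪a y - a z, m⟫ = 0) (y : P2) :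
    ⟪a.linearIsometry y, m⟫ = 0 := by
  have h1 := a.map_vadd 0 y
  rw [vadd_eq_add, vadd_eq_add, add_zero] at h1
  have h2 := ha y 0
  rw [h1, add_sub_cancel_right] at h2
  exact h2

private theorem lin_norm {a : P2 →ᵃⁱ[ℝ] E} {m : E} (hm : ‖m‖ = 1)
    (ha : ∀ y z, ⟪a y - a z, m⟫ = 0) (z : WithLp 2 (P2 × ℝ)) : ‖lin a m z‖ = ‖z‖ := by
  have h1 : ‖lin a m z‖ ^ 2 = ‖z‖ ^ 2 := by
    rw [lin_apply, norm_add_sq_real, real_inner_smul_right, lin_orth ha, WithLp.prod_norm_sq_eq_of_L2,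
      norm_smul, hm, LinearIsometry.norm_map]
    ring
  exact (pow_left_inj₀ (norm_nonneg _) (norm_nonneg _) two_ne_zero).1 h1

private theorem exists_equiv {a : P2 →ᵃⁱ[ℝ] E} {m : E} (hm : ‖m‖ = 1)
    (ha : ∀ y z, ⟪a y - a z, m⟫ = 0) :
    ∃ ψ : WithLp 2 (P2 × ℝ) ≃ₗᵢ[ℝ] E, ∀ z, ψ z = a.linearIsometry z.fst + z.snd • m := by
  have h1 : Module.finrank ℝ (WithLp 2 (P2 × ℝ)) = Module.finrank ℝ E := by
    rw [(WithLp.linearEquiv 2 ℝ (P2 × ℝ)).finrank_eq, Module.finrank_prod]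
    simp
  refine ⟨LinearIsometry.toLinearIsometryEquiv ⟨lin a m, lin_norm hm ha⟩ h1, fun z => ?_⟩
  rw [LinearIsometry.toLinearIsometryEquiv_apply]
  rfl

theorem slice (a : P2 →ᵃⁱ[ℝ] E) {m : E} (hm : ‖m‖ = 1) (ha : ∀ y z, ⟪a y - a z, m⟫ = 0) {u : E}
    (hu : ⟪u, m⟫ ≠ 0) {h : E → ℝ≥0∞} (hh : Measurable h) :
    ∫⁻ x, h x = ENNReal.ofReal |⟪u, m⟫| * ∫⁻ y : P2, ∫⁻ t : ℝ, h (a y + t • u) := by
  obtain ⟨ψ, hψ⟩ := exists_equiv hm ha
  set L := a.linearIsometry with hL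
  have haL : ∀ y, a y = L y + a 0 := by
    intro y
    have h1 := a.map_vadd 0 y
    rwa [vadd_eq_add, vadd_eq_add, add_zero] at h1
  set G : ℝ → ℝ≥0∞ := fun t => ∫⁻ y : P2, h (L y + t • m + a 0) with hG
  have hmeas : Measurable fun z : P2 × ℝ => h (L z.1 + z.2 • m + a 0) := by
    apply hh.comp
    apply Continuous.measurable
    have : Continuous L := L.continuous
    fun_prop
  have hGm : Measurable G := hmeas.lintegral_prod_left'
  have e1 : ∫⁻ x, h x = ∫⁻ t : ℝ, G t := by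
    have h1 : ∫⁻ x, h x = ∫⁻ x, h (x + a 0) := (lintegral_add_right_eq_self h (a 0)).symm
    have h2 : ∫⁻ x, h (x + a 0) = ∫⁻ z : WithLp 2 (P2 × ℝ), h (ψ z + a 0) :=
      (ψ.measurePreserving.lintegral_comp (hh.comp (measurable_add_const _))).symm
    have h3 : ∫⁻ z : WithLp 2 (P2 × ℝ), h (ψ z + a 0) =
        ∫⁻ z : P2 × ℝ, h (ψ (WithLp.toLp 2 z) + a 0) := by
      refine ((WithLp.volume_preserving_toLp P2 ℝ).lintegral_comp ?_).symm
      exact hh.comp ((measurable_add_const _).comp ψ.continuous.measurable)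
    rw [h1, h2, h3]
    simp only [hψ]
    rw [Measure.volume_eq_prod]
    exact lintegral_prod_symm' _ hmeas
  obtain ⟨z, hz⟩ := ψ.surjective u
  rw [hψ] at hz
  have hβ : ⟪u, m⟫ = z.snd := by
    rw [← hz, inner_add_left, lin_orth ha, real_inner_smul_left, real_inner_self_eq_norm_sq, hm]
    ring
  have hmeas2 : Measurable fun q : P2 × ℝ => h (a q.1 + q.2 • u) := by
    apply hh.comp
    apply Continuous.measurable
    have : Continuous a := a.continuous
    fun_prop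
  have e2 : ∫⁻ y : P2, ∫⁻ t : ℝ, h (a y + t • u) = ∫⁻ t : ℝ, G (t * ⟪u, m⟫) := by
    rw [lintegral_lintegral_swap hmeas2.aemeasurable]
    refine lintegral_congr fun t => ?_
    have h1 : ∀ y, a y + t • u = L (y + t • z.fst) + (t * ⟪u, m⟫) • m + a 0 := by
      intro y
      rw [haL y, hβ, map_add, map_smul, ← hz]
      module
    simp only [h1]
    exact lintegral_add_right_eq_self (fun y => h (L y + (t * ⟪u, m⟫) • m + a 0)) (t • z.fst)
  rw [e1, e2]
  have h1 : ∫⁻ t : ℝ, G t = ∫⁻ t : ℝ, G t ∂(ENNReal.ofReal |⟪u, m⟫| •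
      Measure.map (· * ⟪u, m⟫) volume) := by
    rw [Real.smul_map_volume_mul_right hu]
  rw [h1, lintegral_smul_measure, lintegral_map hGm (measurable_mul_const _), smul_eq_mul]

end Pool.Agent.Work.MP_d70a14_gt

end
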