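import Pool.Agent.Work.MP_d70a14_gt.C.ZMap
import Pool.Agent.Work.MP_d70a14_gt.C.Slice

/-! # The suspension formula (M-L)

Let `Z, T` be from `zmap`.  For `q = (x, v) ∈ Cset i` put `Ψ q = J (Z (J q))`, `J (a, b) = (a, -b)`: if the reversed ray from `(x, -v)` leaves
through `y` with velocity `-u` at time `t` then `Ψ q = (y + t u, u)` and (by `Flow.rev`) `Flow V W k y u t x v`, so `t ∈ Live V W y u` and
`st V W y u t = q` (`st_eq`).  Conversely, for `y = ι i z`, `z ∈ interior (K i)`, and `t ∈ Live V W y u` and `⟪u, m⟫ ≠ 0`, the state `q = st V W y u t` is in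
`Cset i` (`back_live`; the exit velocity `-u` is not tangent) and `Ψ q = (y + t u, u)`.
`Cset i` is open (preimage of `Dset i` under `J`), `Ψ` is injective on it with derivative of `|det| = 1` (`|det J| = 1`: involution).
(1) change of variables `lintegral_image_eq_lintegral_abs_det_fderiv_mul` for `Ψ` on `Cset i`:
`∫⁻ q in Cset i, g q = ∫⁻ z in Ψ '' Cset i, G z` for every `G` with `G ∘ Ψ = g` on `Cset i`; a measurable `G` exists: `Ψ` restricted to `Cset i` is continuous and
injective, so a measurable embedding (`ContinuousOn.measurableEmbedding`), `MeasurableEmbedding.exists_measurable_extend`; and `Ψ '' Cset i` is measurable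
(`MeasurableSet.image_of_continuousOn_injOn`).
(2) Tonelli: `∫⁻ z in Ψ '' Cset i, G z = ∫⁻ u, ∫⁻ x, 1_{(x, u) ∈ Ψ '' Cset i} G (x, u)`, for `⟪u, m⟫ ≠ 0` (a.e. `u`) by `slice`:
`= ∫⁻ u, |⟪u, m⟫| ∫⁻ y, ∫⁻ t, 1_{(ι i y + t u, u) ∈ Ψ '' Cset i} G (ι i y + t u, u)`, and for `⟪u, m⟫ ≠ 0`: `(ι i y + t u, u) ∈ Ψ '' Cset i` iff
`y ∈ interior (K i)` and `t ∈ Live V W (ι i y) u` (the line meets the plane of the end in exactly one point), and then
`G (ι i y + t u, u) = g (st V W (ι i y) u t)`.  (Write the inner integrals as integrals over `interior (K i)` and `Live` with indicators.) -/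

open MeasureTheory Set Metric Filter Topology
open scoped RealInnerProductSpace ContDiff ENNReal

noncomputable section

namespace Pool.Agent.Work.MP_d70a14_gt

variable {V : Set E} {K : Bool → Set P2} {ι : Bool → P2 →ᵃⁱ[ℝ] E}

/-- reversal of the velocity -/
private def Susp_J : E × E →L[ℝ] E × E :=
  (ContinuousLinearMap.fst ℝ E E).prod (-(ContinuousLinearMap.snd ℝ E E))

private theorem Susp_J_apply (q : E × E) : Susp_J q = (q.1, -q.2) := rfl

private theorem Susp_JJ (q : E × E) : Susp_J (Susp_J q) = q := by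
  rw [Susp_J_apply, Susp_J_apply]
  exact Prod.ext rfl (neg_neg q.2)

private theorem Susp_det_comp (S₁ S₂ : E × E →L[ℝ] E × E) : (S₁.comp S₂).det = S₁.det * S₂.det := by
  unfold ContinuousLinearMap.det
  rw [← LinearMap.det_comp]
  rfl

private theorem Susp_J_det : |Susp_J.det| = 1 := by
  have h1 : Susp_J.comp Susp_J = ContinuousLinearMap.id ℝ (E × E) := by
    exact ContinuousLinearMap.ext fun q => Susp_JJ q
  have h2 : Susp_J.det * Susp_J.det = 1 := by
    rw [← Susp_det_comp, h1]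
    exact LinearMap.det_id
  rcases mul_self_eq_one_iff.1 h2 with h3 | h3
  · rw [h3, abs_one]
  · rw [h3, abs_neg, abs_one]

theorem cset_isOpen (hb : Body V K ι) (i : Bool) : IsOpen (Cset V K ι i) := by
  obtain ⟨Z, T, hD, -⟩ := zmap hb i
  exact hD.preimage Susp_J.continuous

/-- the exit velocities are not parallel to the end -/
private theorem Susp_normal (hb : Body V K ι) (i : Bool) {m : E} (hm : ‖m‖ = 1)
    (hι : ∀ y z, ⟪ι i y - ι i z, m⟫ = 0) {z : P2} (hz : z ∈ interior (K i)) {n : E}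
    (hn : InnerNormal V (ι i z) n) : n = m ∨ n = -m := by
  obtain ⟨n', hn', hpl, -⟩ := hb.end_normal i hz
  have h1 : n = n' := hn.unique hn'
  rw [h1]
  exact planeNormal_unique (ι i) hm hι hn'.1 hpl

private theorem Susp_tang (hb : Body V K ι) (i : Bool) {m : E} (hm : ‖m‖ = 1)
    (hι : ∀ y z, ⟪ι i y - ι i z, m⟫ = 0) {z : P2} (hz : z ∈ interior (K i)) {n w : E}
    (hn : InnerNormal V (ι i z) n) : ⟪w, n⟫ = 0 ↔ ⟪w, m⟫ = 0 := by
  rcases Susp_normal hb i hm hι hz hn with h | h
  · rw [h]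
  · rw [h, inner_neg_right, neg_eq_zero]

/-- the image of a ray under the suspension map -/
private theorem Susp_mem (hb : Body V K ι) (i : Bool) {m : E} (hm : ‖m‖ = 1)
    (hι : ∀ y z, ⟪ι i y - ι i z, m⟫ = 0) {Z : E × E → E × E} {T : E × E → ℝ}
    (hZ : ∀ q ∈ Dset V K ι i, ∃ k y w n, Flow V (Wall V K ι) k q.1 q.2 (T q) y w ∧
        y ∈ ι i '' interior (K i) ∧ InnerNormal V y n ∧ ⟪w, n⟫ < 0 ∧ Z q = (y - T q • w, w))
    {q : E × E} (hq : q ∈ Cset V K ι i) :
    ∃ z ∈ interior (K i), ∃ t u, Susp_J (Z (Susp_J q)) = (ι i z + t • u, u) ∧ ⟪u, m⟫ ≠ 0 ∧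
      t ∈ Live V (Wall V K ι) (ι i z) u ∧ st V (Wall V K ι) (ι i z) u t = q := by
  obtain ⟨k, y, w, n, h1, ⟨z, hz, rfl⟩, h3, h4, h5⟩ := hZ (Susp_J q) hq
  have h6 := h1.rev
  have hqV : q.1 ∈ V := hq.1
  have h7 : Flow V (Wall V K ι) k (ι i z) (-w) (T (Susp_J q)) q.1 q.2 := by
    have h8 : -(Susp_J q).2 = q.2 := neg_neg q.2
    rw [h8] at h6
    exact h6
  obtain ⟨h9, h10⟩ := st_eq hb.isOpen Body.wall_sub h7 hqV
  refine ⟨z, hz, T (Susp_J q), -w, ?_, ?_, h9, h10⟩
  · rw [h5, Susp_J_apply]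
    change (ι i z - T (Susp_J q) • w, -w) = _
    rw [smul_neg, sub_eq_add_neg]
  · rw [inner_neg_left, ne_eq, neg_eq_zero, ← Susp_tang hb i hm hι hz h3]
    exact h4.ne

theorem susp (hb : Body V K ι) (i : Bool) {m : E} (hm : ‖m‖ = 1)
    (hι : ∀ y z, ⟪ι i y - ι i z, m⟫ = 0) {g : E × E → ℝ≥0∞} (hg : Measurable g) :
    ∫⁻ q in Cset V K ι i, g q = ∫⁻ u : E, ENNReal.ofReal |⟪u, m⟫| *
      ∫⁻ y in interior (K i), ∫⁻ t in Live V (Wall V K ι) (ι i y) u,
        g (st V (Wall V K ι) (ι i y) u t) := by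
  have hdis := end_disjoint hb i
  obtain ⟨Z, T, hD, hZ, hTc, hZd, hZi⟩ := zmap hb i
  have hCo := cset_isOpen hb i
  have hCm : MeasurableSet (Cset V K ι i) := hCo.measurableSet
  -- the map
  obtain ⟨Ψ, hΨ⟩ : ∃ Ψ : E × E → E × E, ∀ q, Ψ q = Susp_J (Z (Susp_J q)) := ⟨_, fun _ => rfl⟩
  have hΨ' : Ψ = fun q => Susp_J (Z (Susp_J q)) := funext hΨ
  have hinj : InjOn Ψ (Cset V K ι i) := by
    intro q hq q' hq' h
    rw [hΨ, hΨ] at h
    have h1 : Z (Susp_J q) = Z (Susp_J q') := by
      rw [← Susp_JJ (Z (Susp_J q)), h, Susp_JJ]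
    have h2 : Susp_J q = Susp_J q' := hZi hq hq' h1
    rw [← Susp_JJ q, h2, Susp_JJ]
  have hder : ∀ q : E × E, ∃ L : E × E →L[ℝ] E × E, q ∈ Cset V K ι i →
      HasFDerivAt Ψ L q ∧ |L.det| = 1 := by
    intro q
    by_cases hq : q ∈ Cset V K ι i
    · obtain ⟨L, hL, hLd⟩ := hZd (Susp_J q) hq
      refine ⟨Susp_J.comp (L.comp Susp_J), fun _ => ⟨?_, ?_⟩⟩
      · rw [hΨ']
        exact Susp_J.hasFDerivAt.comp q (hL.comp q Susp_J.hasFDerivAt)
      · rw [Susp_det_comp, Susp_det_comp, abs_mul, abs_mul, Susp_J_det, hLd]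
        norm_num
    · exact ⟨0, fun h => absurd h hq⟩
  choose L hL using hder
  have hcont : ContinuousOn Ψ (Cset V K ι i) := fun q hq =>
    (hL q hq).1.continuousAt.continuousWithinAt
  -- the extension of `g`
  have hemb := hcont.measurableEmbedding hCm hinj
  obtain ⟨G, hGm, hG⟩ := hemb.exists_measurable_extend
    (hg.comp (measurable_subtype_coe : Measurable (Subtype.val : Cset V K ι i → E × E)))
    (fun _ => ⟨0⟩)
  have hG' : ∀ q ∈ Cset V K ι i, G (Ψ q) = g q := fun q hq => congrFun hG ⟨q, hq⟩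
  have him : MeasurableSet (Ψ '' Cset V K ι i) :=
    hCm.image_of_continuousOn_injOn hcont hinj
  -- change of variables
  have : (volume : Measure (E × E)).IsAddHaarMeasure := by
    rw [Measure.volume_eq_prod]
    infer_instance
  have hcv := lintegral_image_eq_lintegral_abs_det_fderiv_mul volume hCm
    (fun q hq => (hL q hq).1.hasFDerivWithinAt) hinj G
  have hcv2 : ∫⁻ q in Cset V K ι i, g q = ∫⁻ z in Ψ '' Cset V K ι i, G z := by
    rw [hcv]
    refine setLIntegral_congr_fun hCm fun q hq => ?_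
    rw [(hL q hq).2, hG' q hq, ENNReal.ofReal_one, one_mul]
  have hFm : Measurable ((Ψ '' Cset V K ι i).indicator G) := hGm.indicator him
  rw [hcv2, ← lintegral_indicator him, Measure.volume_eq_prod,
    lintegral_prod_symm' _ hFm]
  refine lintegral_congr fun u => ?_
  by_cases hu : ⟪u, m⟫ = 0
  · rw [hu, abs_zero, ENNReal.ofReal_zero, zero_mul]
    refine (lintegral_congr fun x => ?_).trans lintegral_zero
    refine indicator_of_notMem ?_ _
    rintro ⟨q, hq, hqe⟩
    obtain ⟨z, hz, t, u', h1, h2, -, -⟩ := Susp_mem hb i hm hι hZ hq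
    rw [hΨ, h1] at hqe
    have h3 : u' = u := congrArg Prod.snd hqe
    rw [h3] at h2
    exact h2 hu
  · have hsl := slice (ι i) hm hι hu (h := fun x => (Ψ '' Cset V K ι i).indicator G (x, u))
      (hFm.comp measurable_prodMk_right)
    rw [hsl]
    congr 1
    rw [← lintegral_indicator isOpen_interior.measurableSet]
    refine lintegral_congr fun y => ?_
    have key : ∀ t : ℝ, (ι i y + t • u, u) ∈ Ψ '' Cset V K ι i → y ∈ interior (K i) ∧
        t ∈ Live V (Wall V K ι) (ι i y) u ∧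
        G (ι i y + t • u, u) = g (st V (Wall V K ι) (ι i y) u t) := by
      rintro t ⟨q, hq, hqe⟩
      obtain ⟨z, hz, t', u', h1, h2, h3, h4⟩ := Susp_mem hb i hm hι hZ hq
      rw [hΨ, h1] at hqe
      have h5 : u' = u := congrArg Prod.snd hqe
      subst h5
      have h6 : ι i z + t' • u' = ι i y + t • u' := congrArg Prod.fst hqe
      have h7 : ι i z - ι i y = (t - t') • u' := by
        rw [sub_smul, sub_eq_sub_iff_add_eq_add, h6, add_comm]
      have h8 := hι z y
      rw [h7, real_inner_smul_left] at h8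
      have h9 : t = t' := by
        rcases mul_eq_zero.1 h8 with h | h
        · linarith
        · exact absurd h hu
      subst h9
      rw [sub_self, zero_smul, sub_eq_zero] at h7
      have h10 : z = y := (ι i).injective h7
      subst h10
      refine ⟨hz, h3, ?_⟩
      rw [h4, ← hG' q hq, hΨ, h1]
    have key2 : y ∈ interior (K i) → ∀ t ∈ Live V (Wall V K ι) (ι i y) u,
        (ι i y + t • u, u) ∈ Ψ '' Cset V K ι i := by
      intro hy t ht
      obtain ⟨h1, k, h2⟩ := live_spec ht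
      have h3 := h2.rev
      obtain ⟨n, hn, -, -⟩ := hb.end_normal i hy
      have h4 : ⟪-u, n⟫ ≠ 0 := by
        rw [ne_eq, Susp_tang hb i hm hι hy hn, inner_neg_left, neg_eq_zero]
        exact hu
      have hq : st V (Wall V K ι) (ι i y) u t ∈ Cset V K ι i :=
        ⟨h1, k, t, ι i y, -u, n, h3, ⟨y, hy, rfl⟩, hn, h4⟩
      refine ⟨_, hq, ?_⟩
      obtain ⟨k', y', w', n', g1, g2, g3, g4, g5⟩ := hZ (Susp_J _) hq
      have g6 : (ι i y) ∈ ι i '' interior (K i) := ⟨y, hy, rfl⟩
      obtain ⟨g7, -, g8, g9⟩ := Flow.exit_unique hb.isOpen Body.wall_sub g1 h3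
        (Set.disjoint_left.1 hdis.1 g2) (Set.disjoint_left.1 hdis.2 g2)
        (Set.disjoint_left.1 hdis.1 g6) (Set.disjoint_left.1 hdis.2 g6)
      rw [hΨ, g5, g7, g8, g9, Susp_J_apply]
      change (ι i y - t • -u, - -u) = _
      rw [smul_neg, sub_neg_eq_add, neg_neg]
    by_cases hy : y ∈ interior (K i)
    · rw [indicator_of_mem hy, ← lintegral_indicator (live_isOpen hb.isOpen).measurableSet]
      refine lintegral_congr fun t => ?_
      by_cases ht : t ∈ Live V (Wall V K ι) (ι i y) u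
      · rw [indicator_of_mem ht]
        change (Ψ '' Cset V K ι i).indicator G (ι i y + t • u, u) = _
        rw [indicator_of_mem (key2 hy t ht)]
        exact (key t (key2 hy t ht)).2.2
      · rw [indicator_of_notMem ht]
        exact indicator_of_notMem (fun h => ht (key t h).2.1) _
    · rw [indicator_of_notMem hy]
      refine (lintegral_congr fun t => ?_).trans lintegral_zero
      exact indicator_of_notMem (fun h => hy (key t h).1) _

end Pool.Agent.Work.MP_d70a14_gt

end
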