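import Pool.Agent.Work.MP_d70a14_gt.C.FluxF

/-! # The sweep-out inequality and its equality case (M-L)

Notation: `B = {‖v‖ < 1}`, `r = rate f`, `C = Cset false`, `D = Dset false = {q : (q.1, -q.2) ∈ C}`, `c = cB`, `M = ∫_V ‖∇f‖` (finite: `∇f` is continuous on `U`, so bounded on the compact set
`closure V`; `V` has finite volume).  All integrals over `V × B` are finite.
(1) `flux` for `false`: `∫_{C ∩ B} r = c vol (K false)` (real integrals).
(2) the map `q ↦ (q.1, -q.2)` preserves the volume and changes the sign of `r`: `∫_{C ∩ B} r = -∫_{D ∩ B} r`, so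
`2 c vol (K false) = ∫_{V × B} (1_C - 1_D) r ≤ ∫_{V × B} |r| = ∫_V 2 c ‖∇f‖ = 2 c M` (`lint_abs`, Tonelli; `|1_C - 1_D| ≤ 1`).
(3) `flux` for `true` with `1 - f` (`rate (1 - f) = - rate f` on `V`): `∫_{Cset true ∩ B} (-r) = c vol (K true)`; by the same flip
`= ∫_{Dset true ∩ B} r`, and `Dset true = Cset false` a.e. (`ae_cset_iff`), so `= ∫_{C ∩ B} r = c vol (K false)`.  Hence `area_eq`, and the
inequality for `true`.
(4) equality: if `M ≤ vol (K i)` then `∫_{V × B} (|r| - (1_C - 1_D) r) ≤ 0` with an integrand `≥ 0`, so it is `0` a.e. on `V × B`: where `r > 0`,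
`1_C - 1_D = 1`, so `q ∈ C`; where `r < 0`, `1_C - 1_D = -1`, so `q ∉ C`. -/

open MeasureTheory Set Metric Filter Topology
open scoped RealInnerProductSpace ContDiff ENNReal

noncomputable section

namespace Pool.Agent.Work.MP_d70a14_gt

variable {V : Set E} {K : Bool → Set P2} {ι : Bool → P2 →ᵃⁱ[ℝ] E}

private theorem rate_fderiv (f : E → ℝ) (q : E × E) : rate f q = fderiv ℝ f q.1 q.2 := by
  unfold rate gradient
  exact InnerProductSpace.toDual_symm_apply

private theorem rate_neg (f : E → ℝ) (q : E × E) : rate f (q.1, -q.2) = -rate f q := by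
  unfold rate
  rw [inner_neg_right]

private theorem rate_one_sub (f : E → ℝ) (q : E × E) : rate (fun x => 1 - f x) q = -rate f q := by
  rw [rate_fderiv, rate_fderiv, fderiv_const_sub]
  rfl

private theorem rate_cont {U : Set E} {f : E → ℝ} (hU : IsOpen U) (hVU : closure V ⊆ U)
    (hf : ContDiffOn ℝ 1 f U) : ContinuousOn (rate f) (closure V ×ˢ closedBall (0 : E) 1) := by
  have h1 : ContinuousOn (fderiv ℝ f) U := hf.continuousOn_fderiv_of_isOpen hU le_rfl
  have h2 : ContinuousOn (fun q : E × E => fderiv ℝ f q.1 q.2)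
      (closure V ×ˢ closedBall (0 : E) 1) :=
    (h1.comp continuousOn_fst (fun q hq => hVU hq.1)).clm_apply continuousOn_snd
  exact h2.congr fun q _ => rate_fderiv f q

private theorem grad_cont {U : Set E} {f : E → ℝ} (hU : IsOpen U) (hVU : closure V ⊆ U)
    (hf : ContDiffOn ℝ 1 f U) : ContinuousOn (gradient f) (closure V) := by
  have h1 : ContinuousOn (fderiv ℝ f) U := hf.continuousOn_fderiv_of_isOpen hU le_rfl
  exact (InnerProductSpace.toDual ℝ E).symm.continuous.comp_continuousOn (h1.mono hVU)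

private theorem sub_prod : (V ×ˢ ball (0 : E) 1) ⊆ closure V ×ˢ closedBall (0 : E) 1 :=
  prod_mono subset_closure ball_subset_closedBall

private theorem rate_int (hb : Body V K ι) {U : Set E} {f : E → ℝ} (hU : IsOpen U)
    (hVU : closure V ⊆ U) (hf : ContDiffOn ℝ 1 f U) :
    IntegrableOn (rate f) (V ×ˢ ball (0 : E) 1) := by
  have h1 : IsCompact (closure V ×ˢ closedBall (0 : E) 1) :=
    (hb.isBounded.isCompact_closure).prod (isCompact_closedBall 0 1)
  exact ((rate_cont hU hVU hf).integrableOn_compact h1).mono_set sub_prod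

private theorem total (hb : Body V K ι) {U : Set E} {f : E → ℝ} (hU : IsOpen U)
    (hVU : closure V ⊆ U) (hf : ContDiffOn ℝ 1 f U) :
    ∫ q in V ×ˢ ball (0 : E) 1, |rate f q| = 2 * cB * ∫ x in V, ‖gradient f x‖ := by
  have hI := (rate_int hb hU hVU hf).abs
  have hG : IntegrableOn (fun x => 2 * cB * ‖gradient f x‖) V := by
    have h1 := (grad_cont hU hVU hf).norm.integrableOn_compact hb.isBounded.isCompact_closure
      (μ := volume)
    exact (h1.mono_set subset_closure).const_mul _
  have hcB := cB_pos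
  have h1 : ENNReal.ofReal (∫ q in V ×ˢ ball (0 : E) 1, |rate f q|) =
      ENNReal.ofReal (∫ x in V, 2 * cB * ‖gradient f x‖) := by
    rw [ofReal_integral_eq_lintegral_ofReal hI (Eventually.of_forall fun q => abs_nonneg _),
      ofReal_integral_eq_lintegral_ofReal hG (Eventually.of_forall fun x => by positivity)]
    have h2 : (volume : Measure (E × E)).restrict (V ×ˢ ball (0 : E) 1) =
        (volume.restrict V).prod (volume.restrict (ball (0 : E) 1)) := by
      rw [Measure.prod_restrict]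
      rfl
    have h3 : AEMeasurable (fun q : E × E => ENNReal.ofReal |rate f q|)
        ((volume.restrict V).prod (volume.restrict (ball (0 : E) 1))) := by
      rw [← h2]
      exact ENNReal.measurable_ofReal.comp_aemeasurable hI.aestronglyMeasurable.aemeasurable
    rw [h2, lintegral_prod _ h3]
    refine lintegral_congr fun x => ?_
    exact lint_abs (gradient f x)
  have h2 : 0 ≤ ∫ q in V ×ˢ ball (0 : E) 1, |rate f q| := integral_nonneg fun q => abs_nonneg _
  have h3 : 0 ≤ ∫ x in V, 2 * cB * ‖gradient f x‖ := integral_nonneg fun x => by positivity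
  rw [(ENNReal.ofReal_eq_ofReal_iff h2 h3).1 h1, integral_const_mul]

private theorem dset_open (hb : Body V K ι) (i : Bool) : IsOpen (Dset V K ι i) := by
  obtain ⟨Z, T, h, -⟩ := zmap hb i
  exact h

private theorem ball_meas : MeasurableSet {q : E × E | ‖q.2‖ < 1} := by
  apply IsOpen.measurableSet
  apply isOpen_lt _ continuous_const
  fun_prop

private theorem flip_lint (hb : Body V K ι) (i : Bool) (F : E × E → ℝ≥0∞) :
    ∫⁻ q in Dset V K ι i ∩ {q | ‖q.2‖ < 1}, F q =
      ∫⁻ q in Cset V K ι i ∩ {q | ‖q.2‖ < 1}, F (q.1, -q.2) := by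
  have h1 : MeasurePreserving (Prod.map (id : E → E) (Neg.neg : E → E)) (volume.prod volume)
      (volume.prod volume) :=
    (MeasurePreserving.id _).prod (Measure.measurePreserving_neg _)
  have h2 : MeasurableEmbedding (Prod.map (id : E → E) (Neg.neg : E → E)) :=
    ((Homeomorph.refl E).prodCongr (Homeomorph.neg E)).measurableEmbedding
  have h3 := h1.setLIntegral_comp_preimage_emb h2 F (Dset V K ι i ∩ {q | ‖q.2‖ < 1})
  have h4 : Prod.map (id : E → E) (Neg.neg : E → E) ⁻¹' (Dset V K ι i ∩ {q | ‖q.2‖ < 1}) =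
      Cset V K ι i ∩ {q | ‖q.2‖ < 1} := by
    ext q
    constructor
    · rintro ⟨h5, h6⟩
      refine ⟨h5, ?_⟩
      have h7 : ‖-q.2‖ < 1 := h6
      rwa [norm_neg] at h7
    · rintro ⟨h5, h6⟩
      refine ⟨h5, ?_⟩
      show ‖-q.2‖ < 1
      rw [norm_neg]
      exact h6
  rw [h4] at h3
  exact h3.symm

private theorem fin_lint (hb : Body V K ι) (i : Bool) {U : Set E} {f : E → ℝ} (hU : IsOpen U)
    (hVU : closure V ⊆ U) (hf : ContDiffOn ℝ 1 f U) :
    IntegrableOn (rate f) (Cset V K ι i ∩ {q | ‖q.2‖ < 1}) ∧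
    IntegrableOn (rate f) (Dset V K ι i ∩ {q | ‖q.2‖ < 1}) := by
  have h1 := rate_int hb hU hVU hf
  constructor
  · refine h1.mono_set ?_
    rintro q ⟨h2, h3⟩
    exact ⟨h2.1, mem_ball_zero_iff.2 h3⟩
  · refine h1.mono_set ?_
    rintro q ⟨h2, h3⟩
    exact ⟨h2.1, mem_ball_zero_iff.2 h3⟩

private theorem area_aux (ho : OpticalFiber V K ι) {U : Set E} {f : E → ℝ} (hU : IsOpen U)
    (hVU : closure V ⊆ U) (hf : ContDiffOn ℝ 1 f U) (h0 : ∀ y ∈ K false, f (ι false y) = 0)
    (h1 : ∀ y ∈ K true, f (ι true y) = 1) : volume (K false) = volume (K true) := by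
  have hb := ho.toBody
  have e1 := flux ho false hU hVU hf h0 h1
  have hf' : ContDiffOn ℝ 1 (fun x => 1 - f x) U := contDiffOn_const.sub hf
  have e2 := flux ho true hU hVU hf' (fun y hy => by rw [h1 y hy, sub_self])
    (fun y hy => by
      have := h0 y hy
      show 1 - f (ι false y) = 1
      rw [this, sub_zero])
  simp only [rate_one_sub, neg_neg] at e2
  have e3 := flip_lint hb true (fun q => ENNReal.ofReal (rate f q))
  have e4 := flip_lint hb true (fun q => ENNReal.ofReal (-rate f q))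
  simp only [rate_neg, neg_neg] at e3 e4
  rw [← e3, ← e4] at e2
  have h2 : (Cset V K ι false ∩ {q | ‖q.2‖ < 1} : Set (E × E)) =ᵐ[volume]
      (Dset V K ι true ∩ {q | ‖q.2‖ < 1} : Set (E × E)) := by
    have h3 : (Cset V K ι false : Set (E × E)) =ᵐ[volume] (Dset V K ι true : Set (E × E)) := by
      filter_upwards [ae_cset_iff ho false] with q hq
      exact propext hq
    exact h3.inter (ae_eq_refl _)
  rw [← setLIntegral_congr h2, ← setLIntegral_congr h2] at e2
  have h3 : ∫⁻ q in Cset V K ι false ∩ {q | ‖q.2‖ < 1}, ENNReal.ofReal (-rate f q) ≠ ⊤ :=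
    (Integrable.lintegral_lt_top (fin_lint hb false hU hVU hf).1.neg).ne
  have h4 := e1.symm.trans e2
  have h5 := (ENNReal.add_right_inj h3).1 h4
  have hcB : ENNReal.ofReal cB ≠ 0 := (ENNReal.ofReal_pos.2 cB_pos).ne'
  exact (ENNReal.mul_right_inj hcB ENNReal.ofReal_ne_top).1 h5

private theorem main_int (ho : OpticalFiber V K ι) {U : Set E} {f : E → ℝ} (hU : IsOpen U)
    (hVU : closure V ⊆ U) (hf : ContDiffOn ℝ 1 f U) (h0 : ∀ y ∈ K false, f (ι false y) = 0)
    (h1 : ∀ y ∈ K true, f (ι true y) = 1) :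
    IntegrableOn (fun q => (Cset V K ι false).indicator (rate f) q -
      (Dset V K ι false).indicator (rate f) q) (V ×ˢ ball (0 : E) 1) ∧
    ∫ q in V ×ˢ ball (0 : E) 1, ((Cset V K ι false).indicator (rate f) q -
      (Dset V K ι false).indicator (rate f) q) = 2 * cB * (volume (K false)).toReal := by
  have hb := ho.toBody
  have hCm : MeasurableSet (Cset V K ι false) := (cset_isOpen hb false).measurableSet
  have hDm : MeasurableSet (Dset V K ι false) := (dset_open hb false).measurableSet
  have hI := rate_int hb hU hVU hf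
  have hIC : IntegrableOn ((Cset V K ι false).indicator (rate f)) (V ×ˢ ball (0 : E) 1) :=
    Integrable.indicator hI hCm
  have hID : IntegrableOn ((Dset V K ι false).indicator (rate f)) (V ×ˢ ball (0 : E) 1) :=
    Integrable.indicator hI hDm
  refine ⟨hIC.sub hID, ?_⟩
  rw [integral_sub hIC hID, setIntegral_indicator hCm, setIntegral_indicator hDm]
  have hs1 : (V ×ˢ ball (0 : E) 1) ∩ Cset V K ι false = Cset V K ι false ∩ {q | ‖q.2‖ < 1} := by
    ext q
    constructor
    · rintro ⟨h2, h3⟩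
      exact ⟨h3, mem_ball_zero_iff.1 h2.2⟩
    · rintro ⟨h2, h3⟩
      exact ⟨⟨h2.1, mem_ball_zero_iff.2 h3⟩, h2⟩
  have hs2 : (V ×ˢ ball (0 : E) 1) ∩ Dset V K ι false = Dset V K ι false ∩ {q | ‖q.2‖ < 1} := by
    ext q
    constructor
    · rintro ⟨h2, h3⟩
      exact ⟨h3, mem_ball_zero_iff.1 h2.2⟩
    · rintro ⟨h2, h3⟩
      exact ⟨⟨h2.1, mem_ball_zero_iff.2 h3⟩, h2⟩
  rw [hs1, hs2]
  obtain ⟨hC, hD⟩ := fin_lint hb false hU hVU hf
  rw [integral_eq_lintegral_pos_part_sub_lintegral_neg_part hC,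
    integral_eq_lintegral_pos_part_sub_lintegral_neg_part hD]
  have e3 := flip_lint hb false (fun q => ENNReal.ofReal (rate f q))
  have e4 := flip_lint hb false (fun q => ENNReal.ofReal (-rate f q))
  simp only [rate_neg, neg_neg] at e3 e4
  have e1 := flux ho false hU hVU hf h0 h1
  have h3 : ∫⁻ q in Cset V K ι false ∩ {q | ‖q.2‖ < 1}, ENNReal.ofReal (-rate f q) ≠ ⊤ :=
    (Integrable.lintegral_lt_top hC.neg).ne
  have h4 : ENNReal.ofReal cB * volume (K false) ≠ ⊤ :=
    ENNReal.mul_ne_top ENNReal.ofReal_ne_top (hb.compact false).measure_lt_top.ne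
  rw [e3, e4, e1, ENNReal.toReal_add h3 h4, ENNReal.toReal_mul, ENNReal.toReal_ofReal cB_pos.le]
  ring

private theorem phi_le (A B : Set (E × E)) (f : E → ℝ) (q : E × E) :
    A.indicator (rate f) q - B.indicator (rate f) q ≤ |rate f q| := by
  by_cases h1 : q ∈ A <;> by_cases h2 : q ∈ B
  · rw [indicator_of_mem h1, indicator_of_mem h2, sub_self]
    exact abs_nonneg _
  · rw [indicator_of_mem h1, indicator_of_notMem h2, sub_zero]
    exact le_abs_self _
  · rw [indicator_of_notMem h1, indicator_of_mem h2, zero_sub]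
    exact neg_le_abs _
  · rw [indicator_of_notMem h1, indicator_of_notMem h2, sub_zero]
    exact abs_nonneg _

theorem area_eq (ho : OpticalFiber V K ι) {U : Set E} {f : E → ℝ} (hU : IsOpen U)
    (hVU : closure V ⊆ U) (hf : ContDiffOn ℝ 1 f U) (h0 : ∀ y ∈ K false, f (ι false y) = 0)
    (h1 : ∀ y ∈ K true, f (ι true y) = 1) : volume (K false) = volume (K true) := by
  exact area_aux ho hU hVU hf h0 h1

theorem sweep_ineq (ho : OpticalFiber V K ι) {U : Set E} {f : E → ℝ} (hU : IsOpen U)
    (hVU : closure V ⊆ U) (hf : ContDiffOn ℝ 1 f U) (h0 : ∀ y ∈ K false, f (ι false y) = 0)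
    (h1 : ∀ y ∈ K true, f (ι true y) = 1) (i : Bool) :
    (volume (K i)).toReal ≤ ∫ x in V, ‖gradient f x‖ := by
  have hK : volume (K i) = volume (K false) := by
    cases i
    · rfl
    · exact (area_aux ho hU hVU hf h0 h1).symm
  rw [hK]
  obtain ⟨h2, h3⟩ := main_int ho hU hVU hf h0 h1
  have h4 := total ho.toBody hU hVU hf
  have h5 := integral_mono h2 (rate_int ho.toBody hU hVU hf).abs
    (fun q => phi_le (Cset V K ι false) (Dset V K ι false) f q)
  rw [h3, h4] at h5
  have h6 : (0 : ℝ) < 2 * cB := by linarith [cB_pos]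
  exact le_of_mul_le_mul_left h5 h6

theorem sweep_half (ho : OpticalFiber V K ι) {U : Set E} {f : E → ℝ} (hU : IsOpen U)
    (hVU : closure V ⊆ U) (hf : ContDiffOn ℝ 1 f U) (h0 : ∀ y ∈ K false, f (ι false y) = 0)
    (h1 : ∀ y ∈ K true, f (ι true y) = 1) (i : Bool)
    (hle : ∫ x in V, ‖gradient f x‖ ≤ (volume (K i)).toReal) : Half V K ι f := by
  have hK : volume (K i) = volume (K false) := by
    cases i
    · rfl
    · exact (area_aux ho hU hVU hf h0 h1).symm
  rw [hK] at hle
  obtain ⟨h2, h3⟩ := main_int ho hU hVU hf h0 h1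
  have h4 := total ho.toBody hU hVU hf
  have h5 := (rate_int ho.toBody hU hVU hf).abs
  have h6 : ∫ q in V ×ˢ ball (0 : E) 1, (|rate f q| - ((Cset V K ι false).indicator (rate f) q -
      (Dset V K ι false).indicator (rate f) q)) ≤ 0 := by
    rw [integral_sub h5 h2, h3, h4]
    nlinarith [cB_pos]
  have h7 : ∀ q, 0 ≤ |rate f q| - ((Cset V K ι false).indicator (rate f) q -
      (Dset V K ι false).indicator (rate f) q) := fun q =>
    sub_nonneg.2 (phi_le _ _ f q)
  have h8 : ∫ q in V ×ˢ ball (0 : E) 1, (|rate f q| - ((Cset V K ι false).indicator (rate f) q -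
      (Dset V K ι false).indicator (rate f) q)) = 0 := le_antisymm h6 (integral_nonneg h7)
  have h9 := (integral_eq_zero_iff_of_nonneg h7 (h5.sub h2)).1 h8
  have h10 := (ae_restrict_iff' (ho.toBody.isOpen.prod isOpen_ball).measurableSet).1 h9
  unfold Half
  filter_upwards [h10] with q hq hqV hqB
  have h11 := hq ⟨hqV, mem_ball_zero_iff.2 hqB⟩
  have h12 : |rate f q| - ((Cset V K ι false).indicator (rate f) q -
      (Dset V K ι false).indicator (rate f) q) = 0 := h11
  constructor
  · intro hr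
    by_contra hC
    rw [indicator_of_notMem hC, abs_of_pos hr] at h12
    by_cases hD : q ∈ Dset V K ι false
    · rw [indicator_of_mem hD] at h12
      linarith
    · rw [indicator_of_notMem hD] at h12
      linarith
  · intro hr hC
    rw [indicator_of_mem hC, abs_of_neg hr] at h12
    by_cases hD : q ∈ Dset V K ι false
    · rw [indicator_of_mem hD] at h12
      linarith
    · rw [indicator_of_notMem hD] at h12
      linarith

theorem sweep_total (ho : OpticalFiber V K ι) {U : Set E} {f : E → ℝ} (hU : IsOpen U)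
    (hVU : closure V ⊆ U) (hf : ContDiffOn ℝ 1 f U) (h0 : ∀ y ∈ K false, f (ι false y) = 0)
    (h1 : ∀ y ∈ K true, f (ι true y) = 1) (h : Half V K ι f) :
    ∫ x in V, ‖gradient f x‖ = (volume (K false)).toReal := by
  have hflip : ∀ᵐ q : E × E, q.1 ∈ V → ‖-q.2‖ < 1 →
      (0 < rate f (q.1, -q.2) → (q.1, -q.2) ∈ Cset V K ι false) ∧
      (rate f (q.1, -q.2) < 0 → (q.1, -q.2) ∉ Cset V K ι false) := ae_flip h
  obtain ⟨-, h3⟩ := main_int ho hU hVU hf h0 h1
  have h4 := total ho.toBody hU hVU hf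
  have h5 : ∫ q in V ×ˢ ball (0 : E) 1, ((Cset V K ι false).indicator (rate f) q -
      (Dset V K ι false).indicator (rate f) q) = ∫ q in V ×ˢ ball (0 : E) 1, |rate f q| := by
    apply integral_congr_ae
    filter_upwards [ae_restrict_of_ae h, ae_restrict_of_ae hflip,
      ae_restrict_mem (ho.toBody.isOpen.prod isOpen_ball).measurableSet] with q hq1 hq2 hq3
    have hn : ‖q.2‖ < 1 := mem_ball_zero_iff.1 hq3.2
    obtain ⟨e1, e2⟩ := hq1 hq3.1 hn
    obtain ⟨e3, e4⟩ := hq2 hq3.1 (by rwa [norm_neg])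
    rw [rate_neg] at e3 e4
    have hCD : (q.1, -q.2) ∈ Cset V K ι false ↔ q ∈ Dset V K ι false := by
      have h6 : (q.1, - -q.2) = q := by rw [neg_neg]
      constructor
      · intro h7
        have h8 : (q.1, - -q.2) ∈ Dset V K ι false := h7
        rwa [h6] at h8
      · intro h7
        show (q.1, - -q.2) ∈ Dset V K ι false
        rwa [h6]
    rw [hCD] at e3 e4
    rcases lt_trichotomy (rate f q) 0 with h6 | h6 | h6
    · have h7 := e2 h6
      have h8 := e3 (by linarith)
      rw [indicator_of_notMem h7, indicator_of_mem h8, abs_of_neg h6, zero_sub]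
    · rw [h6, abs_zero]
      have h7 : ∀ A : Set (E × E), A.indicator (rate f) q = 0 := by
        intro A
        by_cases hA : q ∈ A
        · rw [indicator_of_mem hA, h6]
        · rw [indicator_of_notMem hA]
      rw [h7, h7, sub_zero]
    · have h7 := e1 h6
      have h8 := e4 (by linarith)
      rw [indicator_of_mem h7, indicator_of_notMem h8, abs_of_pos h6, sub_zero]
  rw [h3, h4] at h5
  have h6 : (0 : ℝ) < 2 * cB := by linarith [cB_pos]
  exact (mul_left_cancel₀ h6.ne' h5).symm

end Pool.Agent.Work.MP_d70a14_gt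

end
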