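import Pool.Agent.Work.MP_d70a14_gt.C.Susp

/-! # Almost every ray which came from one end leaves through the other end (M)

(a) `Bad = (Dset (!i))ᶜ` is closed, so `g = indicator Bad 1` is measurable.  By `susp` (with `m` from `planeNormal`)
`volume (Cset i ∩ Bad) = ∫⁻ u, |⟪u, m⟫| ∫⁻ y in interior (K i), ∫⁻ t in Live, g (st ..)`.  For a.e. `(u, y)` (the hypothesis `through` for `i`, swapped by
`Measure.prod_swap`, `ae_ae_of_ae_prod`): if `⟪u, n⟫ > 0` for the inner normal `n` then the ray from `(ι i y, u)` leaves through the end `!i`, and so does the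
ray from `st t` for `t ∈ Live` (`leaves_live`): `g (st t) = 0`.  If `⟪u, n⟫ ≤ 0`: `⟪u, m⟫ = 0` (as `n = ± m`) and the factor is `0`, or `⟪u, n⟫ < 0` and `Live` is
empty (`InnerNormal.outward`).  So the integral is `0`.
(b) hypothesis `out`.
(c) `Flow.exit_unique` and `disj`.
(d) from (a) for `i` and for `!i` and the map `q ↦ (q.1, -q.2)`, which preserves the volume. -/

open MeasureTheory Set Metric Filter Topology
open scoped RealInnerProductSpace ContDiff ENNReal

noncomputable section

namespace Pool.Agent.Work.MP_d70a14_gt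

variable {V : Set E} {K : Bool → Set P2} {ι : Bool → P2 →ᵃⁱ[ℝ] E}

private theorem first_flight {W : Set E} {k : ℕ} {x v y w : E} {t : ℝ} (h : Flow V W k x v t y w) :
    ∃ t₁ : ℝ, 0 < t₁ ∧ ∀ s : ℝ, 0 < s → s < t₁ → x + s • v ∈ V := by
  cases h with
  | free ht hf => exact ⟨t, ht, hf⟩
  | refl ht hf _ _ _ _ => exact ⟨_, ht, hf⟩

private theorem live_empty {W : Set E} {y u n : E} (hn : InnerNormal V y n) (hu : ⟪u, n⟫ < 0) :
    Live V W y u = ∅ := by
  rw [eq_empty_iff_forall_notMem]
  rintro t ⟨k, x, v, -, hF⟩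
  obtain ⟨t₁, ht₁, h1⟩ := first_flight hF
  have h2 : ∀ᶠ s : ℝ in 𝓝[>] 0, s ∈ Ioo 0 t₁ := Ioo_mem_nhdsGT ht₁
  obtain ⟨s, hs1, hs2⟩ := ((hn.outward hu).and h2).exists
  exact hs1 (h1 s hs2.1 hs2.2)

theorem ae_through (ho : OpticalFiber V K ι) (i : Bool) :
    ∀ᵐ q : E × E, q ∈ Cset V K ι i → q ∈ Dset V K ι (!i) := by
  have hb := ho.toBody
  obtain ⟨m, hm, hpl⟩ := planeNormal (ι i)
  obtain ⟨Z, T, hopen, -⟩ := zmap hb (!i)
  have hBm : MeasurableSet (Dset V K ι (!i))ᶜ := hopen.isClosed_compl.measurableSet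
  set g : E × E → ℝ≥0∞ := (Dset V K ι (!i))ᶜ.indicator 1 with hg
  have hgm : Measurable g := measurable_one.indicator hBm
  have h1 := susp hb i hm hpl hgm
  have h2 : ∫⁻ q in Cset V K ι i, g q = volume ((Dset V K ι (!i))ᶜ ∩ Cset V K ι i) := by
    rw [hg, lintegral_indicator_one hBm, Measure.restrict_apply hBm]
  have hsw : ∀ᵐ p : E × P2, p.2 ∈ interior (K i) →
      (∃ n, InnerNormal V (ι i p.2) n ∧ 0 < ⟪p.1, n⟫) →
      Leaves V (Wall V K ι) (ι (!i) '' interior (K (!i))) (ι i p.2) p.1 :=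
    (Measure.measurePreserving_swap (μ := (volume : Measure E))
      (ν := (volume : Measure P2))).quasiMeasurePreserving.ae (ho.through i)
  have hsw2 := Measure.ae_ae_of_ae_prod hsw
  have h3 : ∫⁻ u : E, ENNReal.ofReal |⟪u, m⟫| *
      ∫⁻ y in interior (K i), ∫⁻ t in Live V (Wall V K ι) (ι i y) u,
        g (st V (Wall V K ι) (ι i y) u t) = 0 := by
    have h4 : ∀ᵐ u : E, ENNReal.ofReal |⟪u, m⟫| *
      ∫⁻ y in interior (K i), ∫⁻ t in Live V (Wall V K ι) (ι i y) u,
        g (st V (Wall V K ι) (ι i y) u t) = 0 := by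
      filter_upwards [hsw2] with u hu
      by_cases hum : ⟪u, m⟫ = 0
      · rw [hum, abs_zero, ENNReal.ofReal_zero, zero_mul]
      · have h5 : ∀ᵐ y ∂(volume.restrict (interior (K i))),
            ∫⁻ t in Live V (Wall V K ι) (ι i y) u, g (st V (Wall V K ι) (ι i y) u t) = 0 := by
          filter_upwards [ae_restrict_of_ae hu, ae_restrict_mem isOpen_interior.measurableSet]
            with y hy hyK
          obtain ⟨n, hn, hnpl, -⟩ := hb.end_normal i hyK
          have hun : ⟪u, n⟫ ≠ 0 := by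
            rcases planeNormal_unique (ι i) hm hpl hn.1 hnpl with h | h
            · rw [h]
              exact hum
            · rw [h, inner_neg_right]
              exact neg_ne_zero.2 hum
          rcases lt_or_gt_of_ne hun with h | h
          · rw [live_empty hn h, Measure.restrict_empty, lintegral_zero_measure]
          · have hL := hy hyK ⟨n, hn, h⟩
            have hdis := end_disjoint hb (!i)
            rw [setLIntegral_congr_fun (g := fun _ => 0) (live_isOpen hb.isOpen).measurableSet ?_,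
              lintegral_zero]
            intro t ht
            have h6 : st V (Wall V K ι) (ι i y) u t ∈ Dset V K ι (!i) :=
              ⟨(live_spec ht).1, leaves_live hb.isOpen Body.wall_sub hdis.1 hdis.2 hL ht⟩
            have h7 : st V (Wall V K ι) (ι i y) u t ∉ (Dset V K ι (!i))ᶜ := fun h8 => h8 h6
            exact indicator_of_notMem h7 _
        rw [lintegral_congr_ae h5, lintegral_zero, mul_zero]
    rw [lintegral_congr_ae h4, lintegral_zero]
  rw [h3, h2] at h1
  have h4 := measure_eq_zero_iff_ae_notMem.1 h1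
  filter_upwards [h4] with q hq hqC
  by_contra hcon
  exact hq ⟨hcon, hqC⟩

theorem ae_out (ho : OpticalFiber V K ι) :
    ∀ᵐ q : E × E, q.1 ∈ V → q ∈ Dset V K ι false ∨ q ∈ Dset V K ι true := by
  filter_upwards [ho.out] with q hq hqV
  obtain ⟨i, hi⟩ := hq hqV
  cases i
  · exact Or.inl ⟨hqV, hi⟩
  · exact Or.inr ⟨hqV, hi⟩

theorem ae_flip {P : E × E → Prop} (h : ∀ᵐ q : E × E, P q) : ∀ᵐ q : E × E, P (q.1, -q.2) := by
  have h1 : MeasurePreserving (Prod.map (id : E → E) (Neg.neg : E → E)) (volume.prod volume)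
      (volume.prod volume) :=
    (MeasurePreserving.id _).prod (Measure.measurePreserving_neg _)
  exact h1.quasiMeasurePreserving.ae h

theorem dset_disjoint (hb : Body V K ι) :
    Disjoint (Dset V K ι false) (Dset V K ι true) := by
  rw [Set.disjoint_left]
  rintro q ⟨-, k, t, y, w, n, h1, h2, h3, h4⟩ ⟨-, k', t', y', w', n', h1', h2', h3', h4'⟩
  have hd := end_disjoint hb false
  have hd' := end_disjoint hb true
  obtain ⟨-, -, h5, -⟩ := Flow.exit_unique hb.isOpen Body.wall_sub h1 h1'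
    (Set.disjoint_left.1 hd.1 h2) (Set.disjoint_left.1 hd.2 h2)
    (Set.disjoint_left.1 hd'.1 h2') (Set.disjoint_left.1 hd'.2 h2')
  rw [← h5] at h2'
  exact Set.disjoint_left.1 hb.disj h2 h2'

theorem ae_cset_iff (ho : OpticalFiber V K ι) (i : Bool) :
    ∀ᵐ q : E × E, q ∈ Cset V K ι i ↔ q ∈ Dset V K ι (!i) := by
  have h1 := ae_through ho i
  have h2 := ae_flip (ae_through ho (!i))
  filter_upwards [h1, h2] with q hq1 hq2
  refine ⟨hq1, fun h => ?_⟩
  rw [Bool.not_not] at hq2
  exact hq2 (by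
    show (q.1, - -q.2) ∈ Dset V K ι (!i)
    rw [neg_neg]
    exact h)

end Pool.Agent.Work.MP_d70a14_gt

end
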