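import Pool.Agent.Work.MP_d70a14_gt.B.ExitLoc
import Pool.Agent.Work.MP_d70a14_gt.A.LiveA

/-! # The global virtual exit map (M)

For `q ∈ Dset V K ι i` choose `k, t, y, w, n` from `Leaves`; they are unique by `Flow.exit_unique` (`y` is in `ι i '' interior (K i)`, so not in `V` (open; the point has an
inner normal, `InnerNormal.notMem`) and not in the wall).  `⟪w, n⟫ < 0` from `exit_local` at the point itself, or from `InnerNormal.neg_of_free` for the last flight.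
Put `T q = t`, `Z q = (y - t w, w)` (and anything off `Dset`).  By `exit_local` around every `q₀ ∈ Dset` there is an open `N` with
`N ⊆ Dset`, and on `N` by uniqueness `T = T_loc`, `Z = A`.  So `Dset` is open, `T` is continuous on it, `Z` has the derivative
`fderiv ℝ A q` (`HasFDerivAt.congr_of_eventuallyEq`) with `|det| = 1`.
Injectivity: if `Z q = Z q' = (z, w)`, then `z + t w = y` and `z + t' w = y'` are both in the plane `{⟪· - y, m⟫ = 0}` of the end, and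
`⟪w, m⟫ ≠ 0` (`m = n` up to sign), so `t = t'` and `y = y'`; by `Flow.rev` the flows from `(y, -w)` lead after the time `t` to `(q.1, -q.2)` and to
`(q'.1, -q'.2)`: `Flow.det`. -/

open MeasureTheory Set Metric Filter Topology
open scoped RealInnerProductSpace ContDiff ENNReal

noncomputable section

namespace Pool.Agent.Work.MP_d70a14_gt

variable {V : Set E} {K : Bool → Set P2} {ι : Bool → P2 →ᵃⁱ[ℝ] E}

theorem end_disjoint (hb : Body V K ι) (i : Bool) :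
    Disjoint (ι i '' interior (K i)) V ∧ Disjoint (ι i '' interior (K i)) (Wall V K ι) := by
  constructor
  · rw [Set.disjoint_left]
    rintro _ ⟨z, hz, rfl⟩
    obtain ⟨n, hn, -⟩ := hb.end_normal i hz
    exact hn.notMem
  · rw [Set.disjoint_left]
    rintro _ ⟨z, hz, rfl⟩ h
    exact h.2 (mem_iUnion.2 ⟨i, z, interior_subset hz, rfl⟩)

private theorem dset_local (hb : Body V K ι) (i : Bool) {q₀ : E × E} (h : q₀ ∈ Dset V K ι i) :
    ∃ (N : Set (E × E)) (A : E × E → E × E) (T : E × E → ℝ), N ∈ 𝓝 q₀ ∧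
      ContDiffAt ℝ 1 A q₀ ∧ |(fderiv ℝ A q₀).det| = 1 ∧ ContinuousAt T q₀ ∧
      ∀ q ∈ N, q.1 ∈ V ∧ ∃ k n,
        Flow V (Wall V K ι) k q.1 q.2 (T q) ((A q).1 + T q • (A q).2) (A q).2 ∧
        (A q).1 + T q • (A q).2 ∈ ι i '' interior (K i) ∧
        InnerNormal V ((A q).1 + T q • (A q).2) n ∧ ⟪(A q).2, n⟫ < 0 := by
  obtain ⟨hx, k, t, y, w, n, hF, hy, hn, hw⟩ := h
  obtain ⟨N, A, T, hN, h0, hA, hA0, hdet, hT, hT0, hall⟩ := exit_local hb i hF hx hy hn hw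
  refine ⟨N, A, T, hN.mem_nhds h0, hA.contDiffAt (hN.mem_nhds h0), hdet _ h0,
    hT.continuousAt (hN.mem_nhds h0), fun q hq => ?_⟩
  obtain ⟨h1, h2, h3, m, h4, h5⟩ := hall q hq
  exact ⟨h1, k, m, h2, h3, h4, h5⟩

theorem zmap (hb : Body V K ι) (i : Bool) :
    ∃ (Z : E × E → E × E) (T : E × E → ℝ), IsOpen (Dset V K ι i) ∧
      (∀ q ∈ Dset V K ι i, ∃ k y w n, Flow V (Wall V K ι) k q.1 q.2 (T q) y w ∧
        y ∈ ι i '' interior (K i) ∧ InnerNormal V y n ∧ ⟪w, n⟫ < 0 ∧ Z q = (y - T q • w, w)) ∧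
      ContinuousOn T (Dset V K ι i) ∧
      (∀ q ∈ Dset V K ι i, ∃ L : E × E →L[ℝ] E × E, HasFDerivAt Z L q ∧ |L.det| = 1) ∧
      InjOn Z (Dset V K ι i) := by
  have hdis := end_disjoint hb i
  have hdata : ∀ q ∈ Dset V K ι i, ∃ k t y w n, Flow V (Wall V K ι) k q.1 q.2 t y w ∧
      y ∈ ι i '' interior (K i) ∧ InnerNormal V y n ∧ ⟪w, n⟫ < 0 := by
    intro q hq
    obtain ⟨N, A, T, hN, -, -, -, hall⟩ := dset_local hb i hq
    obtain ⟨-, k, n, h1, h2, h3, h4⟩ := hall q (mem_of_mem_nhds hN)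
    exact ⟨k, _, _, _, n, h1, h2, h3, h4⟩
  have hex : ∀ q : E × E, ∃ (z : E × E) (t : ℝ), q ∈ Dset V K ι i →
      ∃ k y w n, Flow V (Wall V K ι) k q.1 q.2 t y w ∧
        y ∈ ι i '' interior (K i) ∧ InnerNormal V y n ∧ ⟪w, n⟫ < 0 ∧ z = (y - t • w, w) := by
    intro q
    by_cases hq : q ∈ Dset V K ι i
    · obtain ⟨k, t, y, w, n, h1, h2, h3, h4⟩ := hdata q hq
      exact ⟨(y - t • w, w), t, fun _ => ⟨k, y, w, n, h1, h2, h3, h4, rfl⟩⟩
    · exact ⟨q, 0, fun h => absurd h hq⟩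
  choose Z T hZT using hex
  have huniq : ∀ q ∈ Dset V K ι i, ∀ (k : ℕ) (t : ℝ) (z w n : E),
      Flow V (Wall V K ι) k q.1 q.2 t (z + t • w) w → z + t • w ∈ ι i '' interior (K i) →
      T q = t ∧ Z q = (z, w) := by
    intro q hq k t z w n hF hy
    obtain ⟨k', y', w', n', h1, h2, h3, h4, h5⟩ := hZT q hq
    obtain ⟨h6, -, h7, h8⟩ := Flow.exit_unique hb.isOpen Body.wall_sub h1 hF
      (Set.disjoint_left.1 hdis.1 h2) (Set.disjoint_left.1 hdis.2 h2)
      (Set.disjoint_left.1 hdis.1 hy) (Set.disjoint_left.1 hdis.2 hy)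
    refine ⟨h6, ?_⟩
    rw [h5, h6, h7, h8, add_sub_cancel_right]
  have hloc : ∀ q₀ ∈ Dset V K ι i, ∃ (A : E × E → E × E) (τ : E × E → ℝ),
      ContDiffAt ℝ 1 A q₀ ∧ |(fderiv ℝ A q₀).det| = 1 ∧ ContinuousAt τ q₀ ∧
      ∀ᶠ q in 𝓝 q₀, q ∈ Dset V K ι i ∧ T q = τ q ∧ Z q = A q := by
    intro q₀ hq₀
    obtain ⟨N, A, τ, hN, hA, hdet, hτ, hall⟩ := dset_local hb i hq₀
    refine ⟨A, τ, hA, hdet, hτ, ?_⟩
    filter_upwards [hN] with q hq
    obtain ⟨h1, k, n, h2, h3, h4, h5⟩ := hall q hq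
    have h6 : q ∈ Dset V K ι i := ⟨h1, k, _, _, _, n, h2, h3, h4, h5.ne⟩
    exact ⟨h6, huniq q h6 k (τ q) (A q).1 (A q).2 n h2 h3⟩
  refine ⟨Z, T, ?_, hZT, ?_, ?_, ?_⟩
  · rw [isOpen_iff_mem_nhds]
    intro q₀ hq₀
    obtain ⟨A, τ, -, -, -, h1⟩ := hloc q₀ hq₀
    exact h1.mono fun q hq => hq.1
  · intro q₀ hq₀
    obtain ⟨A, τ, -, -, h0, h1⟩ := hloc q₀ hq₀
    have h2 : T =ᶠ[𝓝 q₀] τ := h1.mono fun q hq => hq.2.1
    exact (h0.congr h2.symm).continuousWithinAt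
  · intro q₀ hq₀
    obtain ⟨A, τ, hA, hdet, -, h1⟩ := hloc q₀ hq₀
    have h2 : Z =ᶠ[𝓝 q₀] A := h1.mono fun q hq => hq.2.2
    exact ⟨fderiv ℝ A q₀, ((hA.differentiableAt one_ne_zero).hasFDerivAt).congr_of_eventuallyEq h2,
      hdet⟩
  · intro q hq q' hq' he
    obtain ⟨k, y, w, n, h1, h2, h3, h4, h5⟩ := hZT q hq
    obtain ⟨k', y', w', n', h1', h2', h3', h4', h5'⟩ := hZT q' hq'
    rw [h5, h5'] at he
    obtain ⟨he1, he2⟩ := Prod.ext_iff.1 he
    have he1' : y - T q • w = y' - T q' • w' := he1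
    have he2' : w = w' := he2
    subst he2'
    obtain ⟨z, hz, rfl⟩ := h2
    obtain ⟨z', hz', rfl⟩ := h2'
    obtain ⟨m, hm, hpl, -⟩ := hb.end_normal i hz
    have hmn := InnerNormal.unique hm h3
    subst hmn
    have h6 := hpl z'
    have h7 : ι i z' - ι i z = (T q' - T q) • w := by
      rw [sub_smul]
      have h8 : ι i z' = ι i z - T q • w + T q' • w := by
        rw [he1']
        abel
      rw [h8]
      abel
    rw [h7, real_inner_smul_left] at h6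
    have h8 : T q' = T q := by
      rcases mul_eq_zero.1 h6 with h | h
      · linarith
      · exact absurd h h4.ne
    rw [h8, sub_self, zero_smul, sub_eq_zero] at h7
    rw [h7, h8] at h1'
    obtain ⟨-, h9, h10⟩ := Flow.det hb.isOpen Body.wall_sub h1.rev h1'.rev
    exact Prod.ext h9 (neg_injective h10)

end Pool.Agent.Work.MP_d70a14_gt

end
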